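import Mathlib

open Set Filter Topology

namespace Pool.Agent.Lib.MP_2b824f_an

/-- A G-delta subset of a Polish space is Polish. -/
theorem polishSpace_of_isGdelta {Z : Type*} [TopologicalSpace Z] [PolishSpace Z] {s : Set Z}
    (hs : IsGδ s) : PolishSpace s := by
  obtain ⟨f, hf, rfl⟩ := hs.eq_iInter_nat
  have hP : ∀ n, PolishSpace (f n) := fun n => (hf n).polishSpace
  let F : (⋂ n, f n : Set Z) → (∀ n, f n) := fun x n => ⟨x.1, mem_iInter.1 x.2 n⟩
  have hFc : Continuous F := continuous_pi fun n => continuous_subtype_val.subtype_mk _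
  have hemb : IsClosedEmbedding F := by
    refine ⟨⟨⟨?_⟩, ?_⟩, ?_⟩
    · apply le_antisymm
      · exact hFc.le_induced
      · have : (instTopologicalSpaceSubtype : TopologicalSpace (⋂ n, f n : Set Z))
          = TopologicalSpace.induced ((fun g : (∀ n, f n) => (g 0 : Z)) ∘ F) inferInstance := rfl
        rw [this, ← induced_compose]
        apply induced_mono
        exact Continuous.le_induced (continuous_subtype_val.comp (continuous_apply 0))
    · intro x y hxy
      have := congrFun hxy 0
      simp only [F, Subtype.mk.injEq] at this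
      exact Subtype.ext this
    · have : range F = ⋂ n, {g : (∀ n, f n) | (g n : Z) = g 0} := by
        ext g
        simp only [mem_range, mem_iInter, mem_ofPred_eq]
        constructor
        · rintro ⟨x, rfl⟩ n; rfl
        · intro h
          refine ⟨⟨g 0, mem_iInter.2 fun n => ?_⟩, ?_⟩
          · rw [← h n]; exact (g n).2
          · funext n
            exact Subtype.ext (h n).symm
      rw [this]
      refine isClosed_iInter fun n => ?_
      exact isClosed_eq (continuous_subtype_val.comp (continuous_apply n))
        (continuous_subtype_val.comp (continuous_apply 0))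
  exact hemb.polishSpace

/-- If `f : D → W` is continuous on a Polish space and any two points of the same fibre are
exchanged by a homeomorphism of `D` preserving `f`, then the range of `f` is Borel. -/
theorem borel_range {D W : Type*} [TopologicalSpace D] [PolishSpace D] [TopologicalSpace W]
    [T2Space W] (f : D → W) (hf : Continuous f)
    (hh : ∀ z z', f z = f z' → ∃ h : D ≃ₜ D, h z = z' ∧ ∀ w, f (h w) = f w) :
    @MeasurableSet W (borel W) (range f) := by
  rcases isEmpty_or_nonempty D with hD | hD
  · rw [range_eq_empty]; exact @MeasurableSet.empty W (borel W)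
  -- saturations of open sets are open
  have hsat : ∀ U : Set D, IsOpen U → IsOpen {x | ∃ w, f w = f x ∧ w ∈ U} := by
    intro U hU
    rw [isOpen_iff_mem_nhds]
    rintro x ⟨w, hw, hwU⟩
    obtain ⟨h, h1, h2⟩ := hh x w hw.symm
    have : h ⁻¹' U ∈ 𝓝 x := h.continuous.continuousAt.preimage_mem_nhds (by
      rw [h1]; exact hU.mem_nhds hwU)
    filter_upwards [this] with y hy
    exact ⟨h y, h2 y, hy⟩
  let := TopologicalSpace.upgradeIsCompletelyMetrizable D
  let mD : MeasurableSpace D := borel D
  have : BorelSpace D := ⟨rfl⟩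
  let d := TopologicalSpace.denseSeq D
  have hd : DenseRange d := TopologicalSpace.denseRange_denseSeq D
  let near : D → ℕ → ℕ → Prop := fun x k n => ∃ w, f w = f x ∧ w ∈ Metric.ball (d n) ((1/2 : ℝ)^k)
  have near_meas : ∀ k n, MeasurableSet {x | near x k n} := fun k n =>
    (hsat _ Metric.isOpen_ball).measurableSet
  have near_congr : ∀ x y k n, f x = f y → (near x k n ↔ near y k n) := by
    intro x y k n hxy
    simp only [near, hxy]
  let G : ℕ → Type _ := fun k => {g : D → ℕ // Measurable g ∧ (∀ x, near x k (g x)) ∧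
    ∀ x y, f x = f y → g x = g y}
  have start : Nonempty (G 0) := by
    classical
    have hex : ∀ x, ∃ n, near x 0 n := by
      intro x
      obtain ⟨n, hn⟩ := hd.exists_dist_lt x (show (0:ℝ) < (1/2)^0 by norm_num)
      exact ⟨n, x, rfl, by simpa [Metric.mem_ball] using hn⟩
    refine ⟨⟨fun x => Nat.find (hex x), measurable_find hex (fun k => near_meas 0 k),
      fun x => Nat.find_spec (hex x), ?_⟩⟩
    intro x y hxy
    refine Nat.find_congr' ?_
    intro n; exact near_congr x y 0 n hxy
  have step : ∀ k (g : G k), ∃ g' : G (k+1), ∀ x, dist (d (g.1 x)) (d (g'.1 x)) ≤ 2 * (1/2)^k := by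
    classical
    intro k g
    obtain ⟨g, hgm, hgn, hgc⟩ := g
    have hex : ∀ x, ∃ n, near x (k+1) n ∧ dist (d (g x)) (d n) < 2 * (1/2)^k := by
      intro x
      obtain ⟨w, hw, hwb⟩ := hgn x
      obtain ⟨n, hn⟩ := hd.exists_dist_lt w (show (0:ℝ) < (1/2)^(k+1) by positivity)
      refine ⟨n, ⟨w, hw, by simpa [Metric.mem_ball] using hn⟩, ?_⟩
      rw [Metric.mem_ball] at hwb
      calc dist (d (g x)) (d n) ≤ dist w (d (g x)) + dist w (d n) := dist_triangle_left _ _ _
        _ < (1/2)^k + (1/2)^(k+1) := add_lt_add hwb hn
        _ ≤ 2 * (1/2)^k := by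
          rw [pow_succ]
          have : (0:ℝ) < (1/2)^k := by positivity
          linarith
    have hm : ∀ n, MeasurableSet {x | near x (k+1) n ∧ dist (d (g x)) (d n) < 2 * (1/2)^k} := by
      intro n
      have h2 : MeasurableSet (g ⁻¹' {j | dist (d j) (d n) < 2 * (1/2 : ℝ)^k}) :=
        hgm (MeasurableSet.of_discrete)
      exact (near_meas (k+1) n).inter h2
    refine ⟨⟨fun x => Nat.find (hex x), measurable_find hex hm,
      fun x => (Nat.find_spec (hex x)).1, ?_⟩, fun x => (Nat.find_spec (hex x)).2.le⟩
    intro x y hxy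
    refine Nat.find_congr' ?_
    intro n
    rw [hgc x y hxy]
    exact and_congr_left fun _ => near_congr x y (k+1) n hxy
  choose nxt hnxt using step
  let sq : ∀ k, G k := fun k => Nat.rec (Classical.choice start) (fun k g => nxt k g) k
  have hsq : ∀ k x, dist (d ((sq k).1 x)) (d ((sq (k+1)).1 x)) ≤ 2 * (1/2)^k := fun k x =>
    hnxt k (sq k) x
  have hcau : ∀ x, CauchySeq fun k => d ((sq k).1 x) := fun x =>
    cauchySeq_of_le_geometric (1/2) 2 (by norm_num) (fun k => hsq k x)
  choose s hs using fun x => cauchySeq_tendsto_of_complete (hcau x)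
  have s_meas : Measurable s := by
    refine measurable_of_tendsto_metrizable (f := fun k x => d ((sq k).1 x)) ?_ ?_
    · intro k
      exact (measurable_from_nat (f := d)).comp (sq k).2.1
    · rw [tendsto_pi_nhds]; exact hs
  have s_congr : ∀ x y, f x = f y → s x = s y := by
    intro x y hxy
    have h1 : (fun k => d ((sq k).1 x)) = fun k => d ((sq k).1 y) := by
      funext k; rw [(sq k).2.2.2 x y hxy]
    have h2 := hs x
    rw [h1] at h2
    exact tendsto_nhds_unique h2 (hs y)
  have f_s : ∀ x, f (s x) = f x := by
    intro x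
    choose w hw hwb using fun k => (sq k).2.2.1 x
    have hlim : Tendsto w atTop (𝓝 (s x)) := by
      have h0 : Tendsto (fun k => (1/2 : ℝ)^k) atTop (𝓝 0) :=
        tendsto_pow_atTop_nhds_zero_of_lt_one (by norm_num) (by norm_num)
      have h1 : Tendsto (fun k => dist (w k) (d ((sq k).1 x))) atTop (𝓝 0) :=
        squeeze_zero (fun _ => dist_nonneg) (fun k => (Metric.mem_ball.1 (hwb k)).le) h0
      exact (tendsto_iff_of_dist (by simpa [dist_comm] using h1)).1 (hs x)
    have h3 : Tendsto (fun k => f (w k)) atTop (𝓝 (f (s x))) :=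
      (hf.tendsto _).comp hlim
    have h4 : Tendsto (fun k => f (w k)) atTop (𝓝 (f x)) := by
      simp only [hw]; exact tendsto_const_nhds
    exact tendsto_nhds_unique h3 h4
  let T : Set D := {x | s x = x}
  have hT : MeasurableSet T := measurableSet_eq_fun s_meas measurable_id
  have hr : range f = f '' T := by
    apply subset_antisymm
    · rintro _ ⟨x, rfl⟩
      exact ⟨s x, s_congr _ _ (f_s x), f_s x⟩
    · exact image_subset_range _ _
  have hinj : InjOn f T := by
    intro x hx y hy hxy
    rw [← show s x = x from hx, ← show s y = y from hy]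
    exact s_congr _ _ hxy
  rw [hr]
  let mW : MeasurableSpace W := borel W
  have : BorelSpace W := ⟨rfl⟩
  exact hT.image_of_continuousOn_injOn hf.continuousOn hinj

end Pool.Agent.Lib.MP_2b824f_an
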