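import Mathlib
import Pool.Agent.Lib.MP_2b824f_an.BorelRange

open Set Filter Topology MeasureTheory
open scoped ENNReal

namespace Pool.Agent.Lib.MP_2b824f_an

theorem continuous_of_fast {D β : Type*} [PseudoMetricSpace D] [TopologicalSpace β] (f : D → β)
    (h : ∀ (u : ℕ → D) (v : D), (∀ n, dist (u n) v ≤ (1/2)^n) →
      Tendsto (fun n => f (u n)) atTop (𝓝 (f v))) : Continuous f := by
  rw [continuous_iff_seqContinuous]
  intro u v hu
  refine tendsto_of_subseq_tendsto fun ns hns => ?_
  have h1 : Tendsto (fun n => u (ns n)) atTop (𝓝 v) := hu.comp hns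
  have h2 : ∀ n : ℕ, ∀ᶠ k in atTop, dist (u (ns k)) v < (1/2)^n := by
    intro n
    exact (Metric.tendsto_nhds.1 h1) _ (by positivity)
  obtain ⟨φ, _, hφ⟩ := extraction_forall_of_eventually h2
  exact ⟨φ, h (fun n => u (ns (φ n))) v fun n => (hφ n).le⟩

variable {Y : Type*} [MeasurableSpace Y] {lam : Measure Y}

theorem fast_bound {u : ℕ → Lp ℝ 1 lam} {v : Lp ℝ 1 lam} (h : ∀ n, dist (u n) v ≤ (1/2)^n) :
    ∫⁻ y, ∑' n, edist (u n y) (v y) ∂lam ≠ ∞ := by
  rw [lintegral_tsum]
  · have h1 : ∀ n, ∫⁻ y, edist (u n y) (v y) ∂lam ≤ (1/2 : ℝ≥0∞)^n := by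
      intro n
      rw [← L1.edist_def, edist_dist]
      refine (ENNReal.ofReal_le_ofReal (h n)).trans (le_of_eq ?_)
      rw [ENNReal.ofReal_pow (by norm_num)]
      congr 1
      rw [ENNReal.ofReal_div_of_pos (by norm_num)]
      simp
    have h2 : ∑' n, (1/2 : ℝ≥0∞)^n ≠ ∞ := by
      rw [ENNReal.tsum_geometric]
      simp
    exact ne_top_of_le_ne_top h2 (ENNReal.tsum_le_tsum h1)
  · intro n
    exact ((Lp.stronglyMeasurable (u n)).measurable.edist
      (Lp.stronglyMeasurable v).measurable).aemeasurable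

theorem measurable_fast (u : ℕ → Lp ℝ 1 lam) (v : Lp ℝ 1 lam) :
    Measurable fun y => ∑' n, edist (u n y) (v y) :=
  Measurable.tsum fun n => (Lp.stronglyMeasurable (u n)).measurable.edist
      (Lp.stronglyMeasurable v).measurable

omit [MeasurableSpace Y] in
theorem fast_tendsto {u : ℕ → Y → ℝ} {v : Y → ℝ} {y : Y}
    (h : ∑' n, edist (u n y) (v y) ≠ ∞) : Tendsto (fun n => u n y) atTop (𝓝 (v y)) := by
  rw [tendsto_iff_edist_tendsto_0]
  exact ENNReal.tendsto_atTop_zero_of_tsum_ne_top h

theorem cont_int (φ : ℝ → Y → ℝ) (hm : Measurable (Function.uncurry φ))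
    (hc : ∀ y, Continuous fun v => φ v y) {M : ℝ} (hM : 0 ≤ M) (hb : ∀ v y, |φ v y| ≤ M * |v|) :
    Continuous fun u : Lp ℝ 1 lam => ∫ y, φ (u y) y ∂lam := by
  refine continuous_of_fast _ fun u v h => ?_
  have hfb := fast_bound h
  have hfm := measurable_fast u v
  have hmeas : ∀ w : Lp ℝ 1 lam, AEStronglyMeasurable (fun y => φ (w y) y) lam := fun w =>
    (hm.comp ((Lp.stronglyMeasurable w).measurable.prodMk measurable_id)).aestronglyMeasurable
  refine tendsto_integral_of_dominated_convergence
    (fun y => M * (|v y| + (∑' n, edist (u n y) (v y)).toReal)) (fun n => hmeas _) ?_ ?_ ?_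
  · refine Integrable.const_mul ?_ M
    exact (L1.integrable_coeFn v).abs.add
      (integrable_toReal_of_lintegral_ne_top hfm.aemeasurable hfb)
  · intro n
    filter_upwards [ae_lt_top hfm hfb] with y hy
    rw [Real.norm_eq_abs]
    refine (hb _ _).trans (mul_le_mul_of_nonneg_left ?_ hM)
    have h1 : |u n y - v y| ≤ (∑' n, edist (u n y) (v y)).toReal := by
      rw [← Real.dist_eq, dist_edist]
      exact ENNReal.toReal_mono hy.ne (ENNReal.le_tsum n)
    have h2 : |u n y| ≤ |v y| + |u n y - v y| := by
      have := abs_add_le (v y) (u n y - v y)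
      simpa using this
    linarith
  · filter_upwards [ae_lt_top hfm hfb] with y hy
    exact ((hc y).tendsto _).comp (fast_tendsto hy.ne)

/-- the support of a coded section -/
def Pset (u : Y → ℝ) : Set Y := {y | 1 ≤ u y}

/-- codes of pairs (section, isomorphism of the section with the space `(ℝ, ν)`) -/
structure Nice (lam : Measure Y) (ν : Measure ℝ) (u : Y → ℝ) : Prop where
  vals : ∀ᵐ y ∂lam, u y = 0 ∨ (1 ≤ u y ∧ u y ≤ 2)
  pos : lam (Pset u) ≠ 0
  law : (lam.restrict (Pset u)).map u = lam (Pset u) • ν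
  inj : ∃ G : ℝ → Y, Measurable G ∧ ∀ᵐ y ∂lam, y ∈ Pset u → G (u y) = y

theorem measurableSet_Pset {u : Y → ℝ} (hu : Measurable u) : MeasurableSet (Pset u) :=
  measurableSet_le measurable_const hu

theorem Pset_lt_top (u : Lp ℝ 1 lam) : lam (Pset u) < ∞ :=
  (L1.integrable_coeFn u).measure_ge_lt_top one_pos

theorem integral_Pset {u : Y → ℝ} (hu : Measurable u)
    (hv : ∀ᵐ y ∂lam, u y = 0 ∨ (1 ≤ u y ∧ u y ≤ 2)) (g : Y → ℝ) :
    ∫ y, g y * min |u y| 1 ∂lam = ∫ y in Pset u, g y ∂lam := by
  rw [← integral_indicator (measurableSet_Pset hu)]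
  refine integral_congr_ae ?_
  filter_upwards [hv] with y hy
  rcases hy with h0 | ⟨h1, h2⟩
  · have : y ∉ Pset u := by
      intro h
      have : 1 ≤ u y := h
      linarith
    rw [indicator_of_notMem this, h0]
    simp
  · have : y ∈ Pset u := h1
    rw [indicator_of_mem this, min_eq_right, mul_one]
    rw [abs_of_nonneg (by linarith)]
    exact h1

theorem exists_bdd_embedding (Z : Type*) [MeasurableSpace Z] [StandardBorelSpace Z] :
    ∃ e : Z → ℝ, MeasurableEmbedding e ∧ ∀ z, 1 ≤ e z ∧ e z ≤ 2 := by
  have h1 := measurableEmbedding_sigmoid_comp_embeddingReal Z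
  refine ⟨fun z => 1 + (unitInterval.sigmoid (embeddingReal Z z) : ℝ), ?_, ?_⟩
  · refine Measurable.measurableEmbedding ?_ ?_
    · exact (measurable_subtype_coe.comp h1.measurable).const_add 1
    · intro a b hab
      refine h1.injective ?_
      have : (unitInterval.sigmoid (embeddingReal Z a) : ℝ)
        = unitInterval.sigmoid (embeddingReal Z b) := by simpa using hab
      exact Subtype.ext this
  · intro z
    have h2 := (unitInterval.sigmoid (embeddingReal Z z)).2
    constructor
    · linarith [h2.1]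
    · linarith [h2.2]

/-- the continuous test functionals -/
theorem cont_test (a : BoundedContinuousFunction ℝ ℝ) :
    Continuous fun u : Lp ℝ 1 lam => ∫ y, a (u y) * min |u y| 1 ∂lam := by
  refine cont_int (fun v _ => a v * min |v| 1) ?_ ?_ (norm_nonneg a) ?_
  · have : Measurable fun p : ℝ × Y => a p.1 * min |p.1| 1 :=
      ((a.continuous.measurable).comp measurable_fst).mul
        ((measurable_fst.abs).min measurable_const)
    exact this
  · intro y
    exact a.continuous.mul (continuous_abs.min continuous_const)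
  · intro v y
    rw [abs_mul]
    have h1 : |a v| ≤ ‖a‖ := a.norm_coe_le_norm v
    have h2 : |min |v| 1| ≤ |v| := by
      rw [abs_of_nonneg (le_min (abs_nonneg v) zero_le_one)]
      exact min_le_left _ _
    exact mul_le_mul h1 h2 (abs_nonneg _) (norm_nonneg a)

theorem cont_one : Continuous fun u : Lp ℝ 1 lam => ∫ y, min |u y| 1 ∂lam := by
  refine cont_int (fun v _ => min |v| 1) ?_ ?_ zero_le_one ?_
  · have : Measurable fun p : ℝ × Y => min |p.1| 1 := (measurable_fst.abs).min measurable_const
    exact this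
  · intro y
    exact continuous_abs.min continuous_const
  · intro v y
    rw [abs_of_nonneg (le_min (abs_nonneg v) zero_le_one), one_mul]
    exact min_le_left _ _

theorem cont_inj (a : BoundedContinuousFunction ℝ ℝ) {e : Y → ℝ} (he : Measurable e)
    (hb : ∀ y, 1 ≤ e y ∧ e y ≤ 2) :
    Continuous fun u : Lp ℝ 1 lam => ∫ y, |a (u y) - e y| * min |u y| 1 ∂lam := by
  refine cont_int (fun v y => |a v - e y| * min |v| 1) ?_ ?_ (M := ‖a‖ + 2)
    (by have := norm_nonneg a; linarith) ?_
  · have : Measurable fun p : ℝ × Y => |a p.1 - e p.2| * min |p.1| 1 :=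
      ((((a.continuous.measurable).comp measurable_fst).sub (he.comp measurable_snd)).abs).mul
        ((measurable_fst.abs).min measurable_const)
    exact this
  · intro y
    exact ((a.continuous.sub continuous_const).abs).mul (continuous_abs.min continuous_const)
  · intro v y
    rw [abs_mul, abs_abs]
    have h1 : |a v| ≤ ‖a‖ := a.norm_coe_le_norm v
    have h2 : |min |v| 1| ≤ |v| := by
      rw [abs_of_nonneg (le_min (abs_nonneg v) zero_le_one)]
      exact min_le_left _ _
    have h3 : |a v - e y| ≤ ‖a‖ + 2 := by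
      have h4 : |e y| ≤ 2 := abs_le.2 ⟨by linarith [(hb y).1], (hb y).2⟩
      exact (abs_sub _ _).trans (add_le_add h1 h4)
    exact mul_le_mul h3 h2 (abs_nonneg _) (by have := norm_nonneg a; linarith)

theorem closed_vals : IsClosed {u : Lp ℝ 1 lam | ∀ᵐ y ∂lam, u y = 0 ∨ (1 ≤ u y ∧ u y ≤ 2)} := by
  let C : Set ℝ := {0} ∪ Icc 1 2
  have hC : IsClosed C := isClosed_singleton.union isClosed_Icc
  have hCne : C.Nonempty := ⟨0, Or.inl rfl⟩
  have hφ : Continuous fun v : ℝ => Metric.infDist v C := Metric.continuous_infDist_pt C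
  have hle : ∀ v : ℝ, Metric.infDist v C ≤ |v| := by
    intro v
    have := Metric.infDist_le_dist_of_mem (x := v) (show (0:ℝ) ∈ C from Or.inl rfl)
    simpa [Real.dist_eq] using this
  have hc : Continuous fun u : Lp ℝ 1 lam => ∫ y, Metric.infDist (u y) C ∂lam := by
    refine cont_int (fun v _ => Metric.infDist v C) ?_ (fun _ => hφ) zero_le_one ?_
    · exact hφ.measurable.comp measurable_fst
    · intro v y
      rw [abs_of_nonneg Metric.infDist_nonneg, one_mul]
      exact hle v
  have : {u : Lp ℝ 1 lam | ∀ᵐ y ∂lam, u y = 0 ∨ (1 ≤ u y ∧ u y ≤ 2)}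
      = (fun u : Lp ℝ 1 lam => ∫ y, Metric.infDist (u y) C ∂lam) ⁻¹' {0} := by
    ext u
    simp only [mem_ofPred_eq, mem_preimage, mem_singleton_iff]
    have hint : Integrable (fun y => Metric.infDist (u y) C) lam := by
      refine (L1.integrable_coeFn u).mono
        (hφ.comp_aestronglyMeasurable (Lp.aestronglyMeasurable u)) ?_
      filter_upwards with y
      rw [Real.norm_eq_abs, Real.norm_eq_abs, abs_of_nonneg Metric.infDist_nonneg]
      exact hle _
    rw [integral_eq_zero_iff_of_nonneg (fun y => Metric.infDist_nonneg) hint]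
    refine eventually_congr (Eventually.of_forall fun y => ?_)
    rw [Pi.zero_apply, ← hC.mem_iff_infDist_zero hCne]
    simp [C]
  rw [this]
  exact isClosed_singleton.preimage hc

theorem nice_iff {ν : Measure ℝ} [IsProbabilityMeasure ν] {e : Y → ℝ}
    (he : MeasurableEmbedding e) (hb : ∀ y, 1 ≤ e y ∧ e y ≤ 2) (u : Lp ℝ 1 lam) :
    Nice lam ν u ↔ (∀ᵐ y ∂lam, u y = 0 ∨ (1 ≤ u y ∧ u y ≤ 2)) ∧
      0 < ∫ y, min |u y| 1 ∂lam ∧
      (∀ a : BoundedContinuousFunction ℝ ℝ,
        ∫ y, a (u y) * min |u y| 1 ∂lam = (∫ y, min |u y| 1 ∂lam) * ∫ v, a v ∂ν) ∧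
      (∀ n : ℕ, ∃ a : BoundedContinuousFunction ℝ ℝ,
        ∫ y, |a (u y) - e y| * min |u y| 1 ∂lam < (1/2)^n) := by
  have hum : Measurable u := (Lp.stronglyMeasurable u).measurable
  have hPm := measurableSet_Pset hum
  have hPt := Pset_lt_top u
  have : IsFiniteMeasure (lam.restrict (Pset u)) := ⟨by simpa using hPt⟩
  have hone : (∀ᵐ y ∂lam, u y = 0 ∨ (1 ≤ u y ∧ u y ≤ 2)) →
      ∫ y, min |u y| 1 ∂lam = lam.real (Pset u) := by
    intro hv
    have := integral_Pset hum hv (fun _ => (1:ℝ))
    simp only [one_mul, integral_const, smul_eq_mul, mul_one, measureReal_restrict_apply_univ]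
      at this
    exact this
  constructor
  · intro h
    refine ⟨h.vals, ?_, ?_, ?_⟩
    · rw [hone h.vals]
      exact ENNReal.toReal_pos h.pos hPt.ne
    · intro a
      rw [hone h.vals, integral_Pset hum h.vals, ← integral_map (φ := u) (f := fun v => a v)
        hum.aemeasurable a.continuous.measurable.aestronglyMeasurable, h.law,
        integral_smul_measure, smul_eq_mul]
      rfl
    · intro n
      obtain ⟨G, hG, hGe⟩ := h.inj
      let ψ : ℝ → ℝ := fun v => e (G v)
      have hψm : Measurable ψ := he.measurable.comp hG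
      have hfin : IsFiniteMeasure ((lam.restrict (Pset u)).map u) :=
        Measure.isFiniteMeasure_map _ _
      have hψi : Integrable ψ ((lam.restrict (Pset u)).map u) := by
        refine Integrable.of_bound hψm.aestronglyMeasurable 2 ?_
        filter_upwards with v
        rw [Real.norm_eq_abs]
        exact abs_le.2 ⟨by linarith [(hb (G v)).1], (hb (G v)).2⟩
      obtain ⟨a, ha, -⟩ := hψi.exists_boundedContinuous_integral_sub_le
        (show (0:ℝ) < (1/2)^(n+1) by positivity)
      refine ⟨a, ?_⟩
      rw [integral_Pset hum h.vals (fun y => |a (u y) - e y|)]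
      have hma : AEStronglyMeasurable (fun v => ‖ψ v - a v‖)
          ((lam.restrict (Pset u)).map u) :=
        (hψm.sub a.continuous.measurable).norm.aestronglyMeasurable
      rw [integral_map hum.aemeasurable hma] at ha
      have h1 : ∫ y in Pset u, |a (u y) - e y| ∂lam
          = ∫ y in Pset u, ‖ψ (u y) - a (u y)‖ ∂lam := by
        refine integral_congr_ae ?_
        rw [Filter.EventuallyEq, ae_restrict_iff' hPm]
        filter_upwards [hGe] with y hy hyP
        simp only [ψ]
        rw [hy hyP, Real.norm_eq_abs, abs_sub_comm]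
      rw [h1]
      refine ha.trans_lt ?_
      rw [pow_succ]
      have : (0:ℝ) < (1/2)^n := by positivity
      linarith
  · rintro ⟨hv, hp, hl, hi⟩
    rw [hone hv] at hp
    have hP0 : lam (Pset u) ≠ 0 := by
      intro h0
      rw [measureReal_def, h0] at hp
      simp at hp
    refine ⟨hv, hP0, ?_, ?_⟩
    · have hfin1 : IsFiniteMeasure ((lam.restrict (Pset u)).map u) :=
        Measure.isFiniteMeasure_map _ _
      have hfin2 : IsFiniteMeasure (lam (Pset u) • ν) := ν.smul_finite hPt.ne
      refine ext_of_forall_integral_eq_of_IsFiniteMeasure fun a => ?_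
      rw [integral_map hum.aemeasurable a.continuous.measurable.aestronglyMeasurable,
        ← integral_Pset hum hv (fun y => a (u y)), hl a, hone hv, integral_smul_measure,
        smul_eq_mul]
      rfl
    · have hne : Nonempty Y := by
        by_contra hcon
        rw [not_nonempty_iff] at hcon
        apply hP0
        rw [Set.eq_empty_of_isEmpty (Pset u), measure_empty]
      obtain ⟨ι, hι, hιe⟩ := he.exists_measurable_extend measurable_id (fun _ => hne)
      choose a ha using hi
      have hbound : ∫⁻ y in Pset u, ∑' n, edist (a n (u y)) (e y) ∂lam ≠ ∞ := by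
        rw [lintegral_tsum]
        swap
        · intro n
          exact (((a n).continuous.measurable.comp hum).edist he.measurable).aemeasurable
        have h1 : ∀ n, ∫⁻ y in Pset u, edist (a n (u y)) (e y) ∂lam ≤ (1/2 : ℝ≥0∞)^n := by
          intro n
          have h2 := ha n
          rw [integral_Pset hum hv (fun y => |a n (u y) - e y|)] at h2
          have h3 : ∫⁻ y in Pset u, edist (a n (u y)) (e y) ∂lam
              = ENNReal.ofReal (∫ y in Pset u, |a n (u y) - e y| ∂lam) := by
            rw [ofReal_integral_eq_lintegral_ofReal]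
            · refine lintegral_congr fun y => ?_
              rw [edist_dist, Real.dist_eq]
            · refine Integrable.of_bound (C := ‖a n‖ + 2) ?_ ?_
              · exact (((a n).continuous.measurable.comp hum).sub
                  he.measurable).abs.aestronglyMeasurable
              · filter_upwards with y
                rw [Real.norm_eq_abs, abs_abs]
                have h5 : |a n (u y)| ≤ ‖a n‖ := (a n).norm_coe_le_norm _
                have h4 : |e y| ≤ 2 := abs_le.2 ⟨by linarith [(hb y).1], (hb y).2⟩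
                exact (abs_sub _ _).trans (add_le_add h5 h4)
            · filter_upwards with y
              exact abs_nonneg _
          rw [h3]
          refine (ENNReal.ofReal_le_ofReal h2.le).trans (le_of_eq ?_)
          rw [ENNReal.ofReal_pow (by norm_num)]
          congr 1
          rw [ENNReal.ofReal_div_of_pos (by norm_num)]
          simp
        have h2 : ∑' n, (1/2 : ℝ≥0∞)^n ≠ ∞ := by
          rw [ENNReal.tsum_geometric]
          simp
        exact ne_top_of_le_ne_top h2 (ENNReal.tsum_le_tsum h1)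
      let ψ : ℝ → ℝ := fun v => limsup (fun n => a n v) atTop
      have hψm : Measurable ψ := Measurable.limsup fun n => (a n).continuous.measurable
      refine ⟨ι ∘ ψ, hι.comp hψm, ?_⟩
      have hm : Measurable fun y => ∑' n, edist (a n (u y)) (e y) :=
        Measurable.tsum fun n => ((a n).continuous.measurable.comp hum).edist he.measurable
      have h1 := ae_lt_top hm hbound
      rw [ae_restrict_iff' hPm] at h1
      filter_upwards [h1] with y hy hyP
      have h2 : Tendsto (fun n => a n (u y)) atTop (𝓝 (e y)) := by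
        rw [tendsto_iff_edist_tendsto_0]
        exact ENNReal.tendsto_atTop_zero_of_tsum_ne_top (hy hyP).ne
      have h3 : ψ (u y) = e y := h2.limsup_eq
      rw [Function.comp_apply, h3]
      exact congrFun hιe y

theorem isGdelta_nice [StandardBorelSpace Y] (ν : Measure ℝ) [IsProbabilityMeasure ν] :
    IsGδ {u : Lp ℝ 1 lam | Nice lam ν u} := by
  obtain ⟨e, he, hb⟩ := exists_bdd_embedding Y
  have : {u : Lp ℝ 1 lam | Nice lam ν u} =
      {u : Lp ℝ 1 lam | ∀ᵐ y ∂lam, u y = 0 ∨ (1 ≤ u y ∧ u y ≤ 2)} ∩
      ({u : Lp ℝ 1 lam | 0 < ∫ y, min |u y| 1 ∂lam} ∩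
      ((⋂ a : BoundedContinuousFunction ℝ ℝ, {u : Lp ℝ 1 lam |
        ∫ y, a (u y) * min |u y| 1 ∂lam = (∫ y, min |u y| 1 ∂lam) * ∫ v, a v ∂ν}) ∩
      (⋂ n : ℕ, ⋃ a : BoundedContinuousFunction ℝ ℝ, {u : Lp ℝ 1 lam |
        ∫ y, |a (u y) - e y| * min |u y| 1 ∂lam < (1/2)^n}))) := by
    ext u
    simp only [mem_ofPred_eq, mem_inter_iff, mem_iInter, mem_iUnion]
    exact nice_iff he hb u
  rw [this]
  refine closed_vals.isGδ.inter (IsGδ.inter ?_ (IsGδ.inter ?_ ?_))
  · exact (isOpen_lt continuous_const cont_one).isGδ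
  · refine (isClosed_iInter fun a => ?_).isGδ
    exact isClosed_eq (cont_test a) (cont_one.mul continuous_const)
  · refine IsGδ.iInter_of_isOpen fun n => isOpen_iUnion fun a => ?_
    exact isOpen_lt (cont_inj a he.measurable hb) continuous_const

theorem polish_nice [StandardBorelSpace Y] [SFinite lam] (ν : Measure ℝ)
    [IsProbabilityMeasure ν] : PolishSpace {u : Lp ℝ 1 lam | Nice lam ν u} := by
  have : Fact ((1:ℝ≥0∞) ≠ ∞) := ⟨ENNReal.one_ne_top⟩
  have : SecondCountableTopology (Lp ℝ 1 lam) := inferInstance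
  have : PolishSpace (Lp ℝ 1 lam) := inferInstance
  exact polishSpace_of_isGdelta (isGdelta_nice ν)

end Pool.Agent.Lib.MP_2b824f_an
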