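import Mathlib

open Set Filter Topology

namespace Pool.Agent.Lib.MP_2b824f_an

/-- A subset of the rationals which is locally finite and unbounded in both directions. -/
structure Good (G : Set ℚ) : Prop where
  fin : ∀ s : ℚ, {t | t ∈ G ∧ |t| ≤ s}.Finite
  up : ∀ s : ℚ, ∃ t, s < t ∧ t ∈ G
  dn : ∀ s : ℚ, ∃ t, t < s ∧ t ∈ G

theorem Good.fin' {G : Set ℚ} (hG : Good G) (s t : ℚ) : {u | u ∈ G ∧ s ≤ u ∧ u ≤ t}.Finite := by
  refine (hG.fin (max |s| |t|)).subset ?_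
  rintro u ⟨hu, h1, h2⟩
  refine ⟨hu, ?_⟩
  rw [abs_le]
  constructor
  · have : -max |s| |t| ≤ s := by
      have := neg_abs_le s
      have := le_max_left |s| |t|
      linarith
    linarith
  · exact h2.trans ((le_abs_self t).trans (le_max_right _ _))

theorem Good.next {G : Set ℚ} (hG : Good G) (s : ℚ) :
    ∃ d, 0 < d ∧ s + d ∈ G ∧ ∀ e, 0 < e → e < d → s + e ∉ G := by
  obtain ⟨t, hst, htG⟩ := hG.up s
  have hfin : {u | u ∈ G ∧ s < u ∧ u ≤ t}.Finite :=
    (hG.fin' s t).subset (by rintro u ⟨h1, h2, h3⟩; exact ⟨h1, h2.le, h3⟩)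
  obtain ⟨m, hm, hmin⟩ := hfin.exists_minimal ⟨t, htG, hst, le_rfl⟩
  refine ⟨m - s, sub_pos.2 hm.2.1, by simpa using hm.1, ?_⟩
  intro e he hed heG
  have h1 : s + e < m := by linarith
  have h2 : m ≤ s + e := hmin ⟨heG, by linarith, h1.le.trans hm.2.2⟩ h1.le
  linarith

theorem Good.prev {G : Set ℚ} (hG : Good G) (s : ℚ) :
    ∃ r, 0 ≤ r ∧ s - r ∈ G ∧ ∀ e, 0 ≤ e → e < r → s - e ∉ G := by
  obtain ⟨t, hst, htG⟩ := hG.dn s
  have hfin : {u | u ∈ G ∧ t ≤ u ∧ u ≤ s}.Finite := hG.fin' t s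
  obtain ⟨m, hm, hmax⟩ := hfin.exists_maximal ⟨t, htG, le_rfl, hst.le⟩
  refine ⟨s - m, sub_nonneg.2 hm.2.2, by simpa using hm.1, ?_⟩
  intro e he hed heG
  have h1 : m < s - e := by linarith
  have h2 : s - e ≤ m := hmax ⟨heG, by linarith [hm.2.1], by linarith⟩ h1.le
  linarith

theorem Good.chain {G : Set ℚ} (hG : Good G) (C : ℚ → ℚ → Prop)
    (htrans : ∀ s g t, s < g → g < t → g ∈ G → C s g → C g t → C s t)
    (hbase : ∀ s t, s < t → (∀ u, s < u → u < t → u ∉ G) → C s t) :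
    ∀ s t, s < t → C s t := by
  have hfin : ∀ s t, {u | u ∈ G ∧ s < u ∧ u < t}.Finite := fun s t =>
    (hG.fin' s t).subset (by rintro u ⟨h1, h2, h3⟩; exact ⟨h1, h2.le, h3.le⟩)
  have key : ∀ n : ℕ, ∀ s t, s < t → {u | u ∈ G ∧ s < u ∧ u < t}.ncard ≤ n → C s t := by
    intro n
    induction n with
    | zero =>
      intro s t hst hc
      refine hbase s t hst ?_
      have : {u | u ∈ G ∧ s < u ∧ u < t} = ∅ := by
        rwa [Nat.le_zero, Set.ncard_eq_zero (hfin s t)] at hc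
      intro u h1 h2 h3
      have : u ∈ {u | u ∈ G ∧ s < u ∧ u < t} := ⟨h3, h1, h2⟩
      simp_all
    | succ n ih =>
      intro s t hst hc
      by_cases hne : ∃ g, g ∈ G ∧ s < g ∧ g < t
      · obtain ⟨g, hg, h1, h2⟩ := hne
        have c1 : {u | u ∈ G ∧ s < u ∧ u < g}.ncard < {u | u ∈ G ∧ s < u ∧ u < t}.ncard := by
          refine Set.ncard_lt_ncard ?_ (hfin s t)
          refine ⟨?_, ?_⟩
          · rintro u ⟨h3, h4, h5⟩; exact ⟨h3, h4, h5.trans h2⟩
          · intro hsub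
            have := hsub (show g ∈ {u | u ∈ G ∧ s < u ∧ u < t} from ⟨hg, h1, h2⟩)
            exact lt_irrefl _ this.2.2
        have c2 : {u | u ∈ G ∧ g < u ∧ u < t}.ncard < {u | u ∈ G ∧ s < u ∧ u < t}.ncard := by
          refine Set.ncard_lt_ncard ?_ (hfin s t)
          refine ⟨?_, ?_⟩
          · rintro u ⟨h3, h4, h5⟩; exact ⟨h3, h1.trans h4, h5⟩
          · intro hsub
            have := hsub (show g ∈ {u | u ∈ G ∧ s < u ∧ u < t} from ⟨hg, h1, h2⟩)
            exact lt_irrefl _ this.2.1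
        exact htrans s g t h1 h2 hg (ih s g h1 (by omega)) (ih g t h2 (by omega))
      · push Not at hne
        refine hbase s t hst ?_
        intro u h1 h2 h3
        exact absurd h2 (not_lt.2 (hne u h3 h1))
  intro s t hst
  exact key _ s t hst le_rfl

end Pool.Agent.Lib.MP_2b824f_an
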