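import Mathlib
import Pool.Agent.Lib.MP_2b824f_an.Leaf

open Set Filter Topology MeasureTheory
open scoped ENNReal

namespace Pool.Agent.Lib.MP_2b824f_an

/-- A measure preserving action of the rationals, with local summability and recurrence. -/
structure QFlow {Y : Type*} [MeasurableSpace Y] (lam : Measure Y) where
  a : ℚ → Y → Y
  zero : ∀ y, a 0 y = y
  add : ∀ d e y, a (d + e) y = a d (a e y)
  mp : ∀ d, MeasurePreserving (a d) lam lam
  summ : ∀ u : Y → ℝ≥0∞, Measurable u → ∫⁻ y, u y ∂lam ≠ ∞ →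
    ∀ᵐ y ∂lam, ∀ s : ℚ, ∑' t : {t : ℚ // |t| ≤ s}, u (a t y) ≠ ∞
  up : ∀ P, MeasurableSet P → lam P ≠ 0 → ∀ᵐ y ∂lam, ∀ s, ∃ t, s < t ∧ a t y ∈ P
  dn : ∀ P, MeasurableSet P → lam P ≠ 0 → ∀ᵐ y ∂lam, ∀ s, ∃ t, t < s ∧ a t y ∈ P

namespace QFlow

variable {Y : Type*} [MeasurableSpace Y] {lam : Measure Y} (F : QFlow lam)

/-- trace of a set on the leaf of `y` -/
def tr (P : Set Y) (y : Y) : Set ℚ := {t | F.a t y ∈ P}

theorem mem_tr {P : Set Y} {y : Y} {t : ℚ} : t ∈ F.tr P y ↔ F.a t y ∈ P := Iff.rfl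

theorem tr_shift {P : Set Y} {y : Y} {s t : ℚ} : t ∈ F.tr P (F.a s y) ↔ t + s ∈ F.tr P y := by
  rw [mem_tr, mem_tr, F.add]

theorem good_shift {P : Set Y} {y : Y} (h : Good (F.tr P y)) (s : ℚ) :
    Good (F.tr P (F.a s y)) := by
  refine ⟨fun r => ?_, fun r => ?_, fun r => ?_⟩
  · have := (h.fin' (-r + s) (r + s)).preimage (f := fun t : ℚ => t + s)
      (add_left_injective s).injOn
    refine this.subset ?_
    rintro t ⟨h1, h2⟩
    rw [abs_le] at h2
    exact ⟨(F.tr_shift).1 h1, by simp only; linarith [h2.1], by simp only; linarith [h2.2]⟩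
  · obtain ⟨t, h1, h2⟩ := h.up (r + s)
    exact ⟨t - s, by linarith, by rw [tr_shift]; simpa using h2⟩
  · obtain ⟨t, h1, h2⟩ := h.dn (r + s)
    exact ⟨t - s, by linarith, by rw [tr_shift]; simpa using h2⟩

theorem measurable_a2 {α : Type*} [MeasurableSpace α] {q : α → ℚ} {g : α → Y}
    (hq : Measurable q) (hg : Measurable g) : Measurable fun x => F.a (q x) (g x) := by
  have h : Measurable (fun p : ℚ × Y => F.a p.1 p.2) :=
    measurable_from_prod_countable_right fun d => (F.mp d).measurable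
  exact h.comp (hq.prodMk hg)

theorem ae_shift {p : Y → Prop} (h : ∀ᵐ y ∂lam, p y) : ∀ᵐ y ∂lam, ∀ t, p (F.a t y) := by
  rw [ae_all_iff]
  intro t
  exact (F.mp t).quasiMeasurePreserving.ae h

theorem good_ae {P : Set Y} (hP : MeasurableSet P) (h0 : lam P ≠ 0) (h1 : lam P ≠ ∞) :
    ∀ᵐ y ∂lam, Good (F.tr P y) := by
  have hs := F.summ (P.indicator 1) (measurable_one.indicator hP) (by
    rw [lintegral_indicator_one hP]; exact h1)
  filter_upwards [hs, F.up P hP h0, F.dn P hP h0] with y h2 h3 h4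
  refine ⟨fun s => ?_, h3, h4⟩
  have := ENNReal.finite_const_le_of_tsum_ne_top (h2 s) one_ne_zero
  have h5 := this.image (Subtype.val)
  refine h5.subset ?_
  rintro t ⟨ht, hts⟩
  refine ⟨⟨t, hts⟩, ?_, rfl⟩
  have : F.a t y ∈ P := ht
  simp [this]

/-- `d` is the distance from `y` to the next point of `P` in its leaf -/
def N (P : Set Y) (y : Y) (d : ℚ) : Prop :=
  0 < d ∧ F.a d y ∈ P ∧ ∀ e, 0 < e → e < d → F.a e y ∉ P

/-- `r` is the distance from the last point of `P` before `y` (inclusive) to `y` -/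
def R (P : Set Y) (y : Y) (r : ℚ) : Prop :=
  0 ≤ r ∧ F.a (-r) y ∈ P ∧ ∀ e, 0 ≤ e → e < r → F.a (-e) y ∉ P

theorem N_unique {P : Set Y} {y : Y} {d d' : ℚ} (h : F.N P y d) (h' : F.N P y d') : d = d' := by
  rcases lt_trichotomy d d' with hlt | heq | hlt
  · exact absurd h.2.1 (h'.2.2 d h.1 hlt)
  · exact heq
  · exact absurd h'.2.1 (h.2.2 d' h'.1 hlt)

theorem R_unique {P : Set Y} {y : Y} {d d' : ℚ} (h : F.R P y d) (h' : F.R P y d') : d = d' := by
  rcases lt_trichotomy d d' with hlt | heq | hlt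
  · exact absurd h.2.1 (h'.2.2 d h.1 hlt)
  · exact heq
  · exact absurd h'.2.1 (h.2.2 d' h'.1 hlt)

open Classical in
/-- distance to the next point of `P` -/
noncomputable def nd (P : Set Y) (y : Y) : ℚ := if h : ∃ d, F.N P y d then choose h else 0

open Classical in
/-- distance from the previous point of `P` -/
noncomputable def pd (P : Set Y) (y : Y) : ℚ := if h : ∃ d, F.R P y d then choose h else 0

/-- next point of `P` -/
noncomputable def nx (P : Set Y) (y : Y) : Y := F.a (F.nd P y) y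

theorem nd_eq {P : Set Y} {y : Y} {d : ℚ} (h : F.N P y d) : F.nd P y = d := by
  have hex : ∃ d, F.N P y d := ⟨d, h⟩
  rw [nd, dif_pos hex]
  exact F.N_unique (Classical.choose_spec hex) h

theorem pd_eq {P : Set Y} {y : Y} {d : ℚ} (h : F.R P y d) : F.pd P y = d := by
  have hex : ∃ d, F.R P y d := ⟨d, h⟩
  rw [pd, dif_pos hex]
  exact F.R_unique (Classical.choose_spec hex) h

theorem N_nd {P : Set Y} {y : Y} (h : Good (F.tr P y)) : F.N P y (F.nd P y) := by
  obtain ⟨d, h1, h2, h3⟩ := h.next 0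
  have : F.N P y d := ⟨h1, by simpa [mem_tr] using h2, fun e he hed => by
    simpa [mem_tr] using h3 e he hed⟩
  rwa [F.nd_eq this]

theorem R_pd {P : Set Y} {y : Y} (h : Good (F.tr P y)) : F.R P y (F.pd P y) := by
  obtain ⟨d, h1, h2, h3⟩ := h.prev 0
  have : F.R P y d := ⟨h1, by simpa [mem_tr] using h2, fun e he hed => by
    simpa [mem_tr] using h3 e he hed⟩
  rwa [F.pd_eq this]

theorem measurable_N {P : Set Y} (hP : MeasurableSet P) (d : ℚ) :
    MeasurableSet {y | F.N P y d} := by
  have h0 : ∀ e, MeasurableSet {y | F.a e y ∈ P} := fun e => (F.mp e).measurable hP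
  have h1 : ∀ e, Measurable fun y => (F.a e y ∈ P) := fun e => measurableSet_setOfPred.1 (h0 e)
  apply measurableSet_setOfPred.2
  unfold N
  refine Measurable.and measurable_const (Measurable.and (h1 d) ?_)
  refine Measurable.forall fun e => ?_
  refine Measurable.imp measurable_const (Measurable.imp measurable_const ?_)
  exact (h1 e).not

theorem measurable_R {P : Set Y} (hP : MeasurableSet P) (d : ℚ) :
    MeasurableSet {y | F.R P y d} := by
  have h0 : ∀ e, MeasurableSet {y | F.a e y ∈ P} := fun e => (F.mp e).measurable hP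
  have h1 : ∀ e, Measurable fun y => (F.a e y ∈ P) := fun e => measurableSet_setOfPred.1 (h0 e)
  apply measurableSet_setOfPred.2
  unfold R
  refine Measurable.and measurable_const (Measurable.and (h1 _) ?_)
  refine Measurable.forall fun e => ?_
  refine Measurable.imp measurable_const (Measurable.imp measurable_const ?_)
  exact (h1 _).not

theorem measurable_nd {P : Set Y} (hP : MeasurableSet P) : Measurable (F.nd P) := by
  refine measurable_to_countable' fun d => ?_
  have : F.nd P ⁻¹' {d} = {y | F.N P y d} ∪ ({y | ∃ e, F.N P y e}ᶜ ∩ {_y | d = 0}) := by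
    ext y
    simp only [mem_preimage, mem_singleton_iff, mem_union, mem_ofPred_eq, mem_inter_iff,
      mem_compl_iff]
    constructor
    · intro h
      by_cases hex : ∃ e, F.N P y e
      · left
        obtain ⟨e, he⟩ := hex
        rw [F.nd_eq he] at h
        rwa [← h]
      · right
        refine ⟨hex, ?_⟩
        rw [nd, dif_neg hex] at h
        exact h.symm
    · rintro (h | ⟨h1, h2⟩)
      · exact F.nd_eq h
      · rw [nd, dif_neg h1, h2]
  rw [this]
  refine (F.measurable_N hP d).union (MeasurableSet.inter ?_ (MeasurableSet.const _))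
  refine MeasurableSet.compl ?_
  have : {y | ∃ e, F.N P y e} = ⋃ e, {y | F.N P y e} := by ext; simp
  rw [this]
  exact MeasurableSet.iUnion fun e => F.measurable_N hP e

theorem measurable_pd {P : Set Y} (hP : MeasurableSet P) : Measurable (F.pd P) := by
  refine measurable_to_countable' fun d => ?_
  have : F.pd P ⁻¹' {d} = {y | F.R P y d} ∪ ({y | ∃ e, F.R P y e}ᶜ ∩ {_y | d = 0}) := by
    ext y
    simp only [mem_preimage, mem_singleton_iff, mem_union, mem_ofPred_eq, mem_inter_iff,
      mem_compl_iff]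
    constructor
    · intro h
      by_cases hex : ∃ e, F.R P y e
      · left
        obtain ⟨e, he⟩ := hex
        rw [F.pd_eq he] at h
        rwa [← h]
      · right
        refine ⟨hex, ?_⟩
        rw [pd, dif_neg hex] at h
        exact h.symm
    · rintro (h | ⟨h1, h2⟩)
      · exact F.pd_eq h
      · rw [pd, dif_neg h1, h2]
  rw [this]
  refine (F.measurable_R hP d).union (MeasurableSet.inter ?_ (MeasurableSet.const _))
  refine MeasurableSet.compl ?_
  have : {y | ∃ e, F.R P y e} = ⋃ e, {y | F.R P y e} := by ext; simp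
  rw [this]
  exact MeasurableSet.iUnion fun e => F.measurable_R hP e

theorem measurable_nx {P : Set Y} (hP : MeasurableSet P) : Measurable (F.nx P) :=
  F.measurable_a2 (F.measurable_nd hP) measurable_id

/-- relation between the previous point and the gap length -/
theorem R_iff {P : Set Y} {y : Y} (h : Good (F.tr P y)) (r : ℚ) :
    F.R P y r ↔ (F.a (-r) y ∈ P ∧ 0 ≤ r ∧ r < F.nd P (F.a (-r) y)) := by
  have hN := F.N_nd (F.good_shift h (-r))
  constructor
  · rintro ⟨h1, h2, h3⟩
    refine ⟨h2, h1, ?_⟩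
    by_contra hlt
    push Not at hlt
    have h4 := h3 (r - F.nd P (F.a (-r) y)) (by linarith) (by linarith [hN.1])
    apply h4
    have h5 := hN.2.1
    rw [← F.add] at h5
    convert h5 using 2
    ring
  · rintro ⟨h1, h2, h3⟩
    refine ⟨h2, h1, ?_⟩
    intro e he her hmem
    have h4 := hN.2.2 (r - e) (by linarith) (by linarith)
    apply h4
    rw [← F.add]
    convert hmem using 2
    ring

theorem pd_shift {P : Set Y} {b : Y} (h : Good (F.tr P b)) (hb : b ∈ P) {r : ℚ} (h0 : 0 ≤ r)
    (h1 : r < F.nd P b) : F.pd P (F.a r b) = r := by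
  apply F.pd_eq
  rw [F.R_iff (F.good_shift h r)]
  have : F.a (-r) (F.a r b) = b := by rw [← F.add]; simp [F.zero]
  rw [this]
  exact ⟨hb, h0, h1⟩

/-- Kac formula: integration over the leaves via the gaps of a section. -/
theorem kac [SFinite lam] {P : Set Y} (hP : MeasurableSet P) (h0 : lam P ≠ 0) (h1 : lam P ≠ ∞)
    {φ : Y → ℝ≥0∞} (hφ : Measurable φ) :
    ∫⁻ y, φ y ∂lam = ∫⁻ b in P, ∑' r : ℚ, (if 0 ≤ r ∧ r < F.nd P b then φ (F.a r b) else 0) ∂lam := by
  classical
  have hnd := F.measurable_nd hP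
  have hm1 : ∀ r : ℚ, MeasurableSet {b | 0 ≤ r ∧ r < F.nd P b} := by
    intro r
    apply measurableSet_setOfPred.2
    refine Measurable.and measurable_const ?_
    exact measurableSet_setOfPred.1 (hnd (MeasurableSet.of_discrete (s := {x | r < x})))
  rw [lintegral_tsum]
  swap
  · intro r
    exact (Measurable.ite (hm1 r) (hφ.comp (F.mp r).measurable) measurable_const).aemeasurable
  let g : ℚ → Y → ℝ≥0∞ := fun r y =>
    if (F.a (-r) y ∈ P ∧ 0 ≤ r ∧ r < F.nd P (F.a (-r) y)) then φ y else 0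
  have hgm : ∀ r, Measurable (g r) := by
    intro r
    refine Measurable.ite ?_ hφ measurable_const
    have : {y | F.a (-r) y ∈ P ∧ 0 ≤ r ∧ r < F.nd P (F.a (-r) y)}
      = F.a (-r) ⁻¹' (P ∩ {b | 0 ≤ r ∧ r < F.nd P b}) := rfl
    rw [this]
    exact (F.mp (-r)).measurable (hP.inter (hm1 r))
  have hg : ∀ r, ∫⁻ b in P, (if 0 ≤ r ∧ r < F.nd P b then φ (F.a r b) else 0) ∂lam
      = ∫⁻ y, g r y ∂lam := by
    intro r
    rw [← (F.mp r).lintegral_comp (hgm r), ← lintegral_indicator hP]
    refine lintegral_congr fun b => ?_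
    have hb : F.a (-r) (F.a r b) = b := by rw [← F.add]; simp [F.zero]
    simp only [g, hb]
    by_cases hbP : b ∈ P
    · simp [hbP]
    · simp [hbP]
  simp_rw [hg]
  rw [← lintegral_tsum (fun r => (hgm r).aemeasurable)]
  refine lintegral_congr_ae ?_
  filter_upwards [F.good_ae hP h0 h1] with y hy
  have hR := F.R_pd hy
  rw [tsum_eq_single (F.pd P y)]
  · simp only [g]
    rw [if_pos ((F.R_iff hy _).1 hR)]
  · intro r hr
    simp only [g]
    rw [if_neg]
    intro hcon
    exact hr (F.R_unique ((F.R_iff hy r).2 hcon) hR)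

end QFlow

end Pool.Agent.Lib.MP_2b824f_an
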