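import Mathlib
import Pool.Agent.Lib.MP_2b824f_an.Flow

open Set Filter Topology MeasureTheory
open scoped ENNReal

namespace Pool.Agent.Lib.MP_2b824f_an

namespace QFlow

variable {Y : Type*} [MeasurableSpace Y] {lam : Measure Y} (F : QFlow lam)

/-- A scaling isomorphism between two sections intertwining the next-point maps. -/
structure Conj (P P' : Set Y) (τ τ' : Y → Y) (c : ℝ≥0∞) : Prop where
  hP : MeasurableSet P
  hP' : MeasurableSet P'
  P0 : lam P ≠ 0
  P1 : lam P ≠ ∞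
  P0' : lam P' ≠ 0
  P1' : lam P' ≠ ∞
  mt : Measurable τ
  mt' : Measurable τ'
  c0 : c ≠ 0
  c1 : c ≠ ∞
  ae : ∀ᵐ b ∂lam, b ∈ P → (τ b ∈ P' ∧ τ' (τ b) = b ∧ F.nx P' (τ b) = τ (F.nx P b))
  map : (lam.restrict P).map τ = c • lam.restrict P'

/-- piecewise linear extension of `τ : P → P'` to the whole space -/
noncomputable def th (P P' : Set Y) (τ : Y → Y) (y : Y) : Y :=
  F.a (F.pd P y * F.nd P' (τ (F.a (-(F.pd P y)) y)) / F.nd P (F.a (-(F.pd P y)) y))
    (τ (F.a (-(F.pd P y)) y))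

/-- regular base points -/
def Reg (P P' : Set Y) (τ τ' : Y → Y) (y : Y) : Prop :=
  Good (F.tr P y) ∧ ∀ t, F.a t y ∈ P → (τ (F.a t y) ∈ P' ∧ τ' (τ (F.a t y)) = F.a t y ∧
    F.nx P' (τ (F.a t y)) = τ (F.nx P (F.a t y)) ∧ Good (F.tr P' (τ (F.a t y))))

theorem nx_mem {P : Set Y} {y : Y} (h : Good (F.tr P y)) : F.nx P y ∈ P := (F.N_nd h).2.1

theorem measurable_th {P P' : Set Y} {τ : Y → Y} (hP : MeasurableSet P) (hP' : MeasurableSet P')
    (hτ : Measurable τ) : Measurable (F.th P P' τ) := by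
  have h1 : Measurable fun y => F.a (-(F.pd P y)) y :=
    F.measurable_a2 (F.measurable_pd hP).neg measurable_id
  have h2 : Measurable fun y => τ (F.a (-(F.pd P y)) y) := hτ.comp h1
  refine F.measurable_a2 ?_ h2
  have h3 : Measurable fun y => ((F.pd P y, F.nd P' (τ (F.a (-(F.pd P y)) y))),
      F.nd P (F.a (-(F.pd P y)) y)) :=
    ((F.measurable_pd hP).prodMk ((F.measurable_nd hP').comp h2)).prodMk
      ((F.measurable_nd hP).comp h1)
  exact (measurable_of_countable (fun p : (ℚ × ℚ) × ℚ => p.1.1 * p.1.2 / p.2)).comp h3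

variable {F} {P P' : Set Y} {τ τ' : Y → Y} {c : ℝ≥0∞}

theorem Conj.ae_pull (h : F.Conj P P' τ τ' c) {p : Y → Prop} (hp : ∀ᵐ y ∂lam, y ∈ P' → p y) :
    ∀ᵐ b ∂lam, b ∈ P → p (τ b) := by
  have h1 : ∀ᵐ y ∂(lam.restrict P').map id, p y := by
    rw [Measure.map_id, ae_restrict_iff' h.hP']; exact hp
  have h2 : ∀ᵐ y ∂(lam.restrict P).map τ, p y := by
    rw [h.map]
    rw [Measure.map_id] at h1
    exact Measure.ae_smul_measure h1 c
  have h3 := ae_of_ae_map h.mt.aemeasurable h2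
  rwa [ae_restrict_iff' h.hP] at h3

theorem Conj.symm [StandardBorelSpace Y] (h : F.Conj P P' τ τ' c) : F.Conj P' P τ' τ c⁻¹ where
  hP := h.hP'
  hP' := h.hP
  P0 := h.P0'
  P1 := h.P1'
  P0' := h.P0
  P1' := h.P1
  mt := h.mt'
  mt' := h.mt
  c0 := ENNReal.inv_ne_zero.2 h.c1
  c1 := ENNReal.inv_ne_top.2 h.c0
  ae := by
    have hmeas : MeasurableSet {b' | τ' b' ∈ P ∧ τ (τ' b') = b' ∧
        F.nx P (τ' b') = τ' (F.nx P' b')} := by
      apply measurableSet_setOfPred.2
      refine Measurable.and ?_ (Measurable.and ?_ ?_)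
      · exact measurableSet_setOfPred.1 (h.mt' h.hP)
      · exact (h.mt.comp h.mt').eq measurable_id
      · exact ((F.measurable_nx h.hP).comp h.mt').eq (h.mt'.comp (F.measurable_nx h.hP'))
    have h1 : ∀ᵐ b ∂(lam.restrict P), τ' (τ b) ∈ P ∧ τ (τ' (τ b)) = τ b ∧
        F.nx P (τ' (τ b)) = τ' (F.nx P' (τ b)) := by
      rw [ae_restrict_iff' h.hP]
      have h2 : ∀ᵐ b ∂lam, F.nx P b ∈ P → τ' (τ (F.nx P b)) = F.nx P b := by
        filter_upwards [F.ae_shift h.ae] with b hb hb1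
        exact (hb (F.nd P b) hb1).2.1
      filter_upwards [h.ae, h2, F.good_ae h.hP h.P0 h.P1] with b hb hb2 hb3 hbP
      obtain ⟨k1, k2, k3⟩ := hb hbP
      rw [k2]
      refine ⟨hbP, rfl, ?_⟩
      rw [k3, hb2 (F.nx_mem hb3)]
    have h2 := (ae_map_iff h.mt.aemeasurable hmeas).2 h1
    rw [h.map] at h2
    have h3 : ∀ᵐ y ∂(lam.restrict P'), τ' y ∈ P ∧ τ (τ' y) = y ∧
        F.nx P (τ' y) = τ' (F.nx P' y) :=
      (Measure.ae_ennreal_smul_measure_iff h.c0).1 h2
    rwa [ae_restrict_iff' h.hP'] at h3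
  map := by
    have h1 : (lam.restrict P').map τ' = c⁻¹ • ((lam.restrict P).map τ).map τ' := by
      rw [h.map, Measure.map_smul, smul_smul, ENNReal.inv_mul_cancel h.c0 h.c1, one_smul]
    rw [h1, Measure.map_map h.mt' h.mt]
    congr 1
    have h2 : (τ' ∘ τ) =ᵐ[lam.restrict P] id := by
      rw [Filter.EventuallyEq, ae_restrict_iff' h.hP]
      filter_upwards [h.ae] with b hb hbP
      exact (hb hbP).2.1
    rw [Measure.map_congr h2, Measure.map_id]

theorem Conj.reg (h : F.Conj P P' τ τ' c) : ∀ᵐ y ∂lam, F.Reg P P' τ τ' y := by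
  have h1 : ∀ᵐ b ∂lam, b ∈ P → Good (F.tr P' (τ b)) :=
    h.ae_pull ((F.good_ae h.hP' h.P0' h.P1').mono fun y hy _ => hy)
  filter_upwards [F.good_ae h.hP h.P0 h.P1, F.ae_shift h.ae, F.ae_shift h1] with y h2 h3 h4
  refine ⟨h2, fun t ht => ?_⟩
  obtain ⟨k1, k2, k3⟩ := h3 t ht
  exact ⟨k1, k2, k3, h4 t ht⟩

theorem Reg.shift {y : Y} (h : F.Reg P P' τ τ' y) (s : ℚ) : F.Reg P P' τ τ' (F.a s y) := by
  refine ⟨F.good_shift h.1 s, fun t ht => ?_⟩
  rw [← F.add] at ht ⊢
  exact h.2 (t + s) ht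

/-- the explicit formula for the extension on a gap -/
theorem Reg.formula {b : Y} (h : F.Reg P P' τ τ' b) (hb : b ∈ P) {r : ℚ} (h0 : 0 ≤ r)
    (h1 : r ≤ F.nd P b) :
    F.th P P' τ (F.a r b) = F.a (r * F.nd P' (τ b) / F.nd P b) (τ b) := by
  have hN := F.N_nd h.1
  have hb0 := h.2 0 (by rw [F.zero]; exact hb)
  rw [F.zero] at hb0
  rcases h1.lt_or_eq with hlt | heq
  · rw [th, F.pd_shift h.1 hb h0 hlt]
    have : F.a (-r) (F.a r b) = b := by rw [← F.add]; simp [F.zero]
    rw [this]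
  · have hR : F.R P (F.a r b) 0 := by
      refine ⟨le_rfl, ?_, fun e he he' => absurd he' (not_lt.2 he)⟩
      rw [neg_zero, F.zero, heq]; exact hN.2.1
    rw [th, F.pd_eq hR, neg_zero, F.zero, zero_mul, zero_div, F.zero, heq]
    have h3 := hb0.2.2.1
    rw [nx, nx] at h3
    rw [← h3]
    congr 1
    field_simp [hN.1.ne']

theorem Reg.inv {y : Y} (h : F.Reg P P' τ τ' y) : F.th P' P τ' (F.th P P' τ y) = y := by
  have hR := F.R_pd h.1
  have hRi := (F.R_iff h.1 _).1 hR
  set r := F.pd P y with hr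
  set b := F.a (-r) y with hbdef
  have hb : b ∈ P := hRi.1
  have hregb : F.Reg P P' τ τ' b := h.shift (-r)
  have hy : y = F.a r b := by rw [hbdef, ← F.add]; simp [F.zero]
  have hN := F.N_nd hregb.1
  have hb0 := hregb.2 0 (by rw [F.zero]; exact hb)
  rw [F.zero] at hb0
  obtain ⟨k1, k2, k3, k4⟩ := hb0
  have hN' := F.N_nd k4
  have h1 : F.th P P' τ y = F.a (r * F.nd P' (τ b) / F.nd P b) (τ b) := by
    conv_lhs => rw [hy]
    exact hregb.formula hb hRi.2.1 hRi.2.2.le
  rw [h1]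
  have hr0 : 0 ≤ r * F.nd P' (τ b) / F.nd P b :=
    div_nonneg (mul_nonneg hRi.2.1 hN'.1.le) hN.1.le
  have hr1 : r * F.nd P' (τ b) / F.nd P b < F.nd P' (τ b) := by
    rw [div_lt_iff₀ hN.1, mul_comm]
    exact mul_lt_mul_of_pos_left hRi.2.2 hN'.1
  rw [th, F.pd_shift k4 k1 hr0 hr1]
  have h2 : F.a (-(r * F.nd P' (τ b) / F.nd P b)) (F.a (r * F.nd P' (τ b) / F.nd P b) (τ b))
      = τ b := by rw [← F.add]; simp [F.zero]
  rw [h2, k2]
  conv_rhs => rw [hy]
  congr 1
  have e1 := hN.1.ne'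
  have e2 := hN'.1.ne'
  field_simp

/-- order relation between images of two points of the leaf -/
def Ord (F : QFlow lam) (Θ : Y → Y) (y : Y) (s t : ℚ) : Prop :=
  ∃ d, 0 < d ∧ Θ (F.a t y) = F.a d (Θ (F.a s y)) ∧
    ∀ e', 0 < e' → e' < d → ∃ e, s < e ∧ e < t ∧ Θ (F.a e y) = F.a e' (Θ (F.a s y))

theorem Reg.ord {y : Y} (h : F.Reg P P' τ τ' y) :
    ∀ s t, s < t → F.Ord (F.th P P' τ) y s t := by
  refine h.1.chain _ ?_ ?_
  · rintro s g t hsg hgt - ⟨d1, hd1, e1, f1⟩ ⟨d2, hd2, e2, f2⟩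
    refine ⟨d2 + d1, by linarith, ?_, ?_⟩
    · rw [e2, e1, F.add]
    · intro e' h0 h1
      rcases lt_trichotomy e' d1 with hlt | heq | hlt
      · obtain ⟨e, h2, h3, h4⟩ := f1 e' h0 hlt
        exact ⟨e, h2, h3.trans hgt, h4⟩
      · exact ⟨g, hsg, hgt, by rw [e1, heq]⟩
      · obtain ⟨e, h2, h3, h4⟩ := f2 (e' - d1) (by linarith) (by linarith)
        refine ⟨e, hsg.trans h2, h3, ?_⟩
        rw [h4, e1, ← F.add]
        congr 1; ring
  · intro s t hst hno
    have hs := h.shift s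
    have hR := F.R_pd hs.1
    have hRi := (F.R_iff hs.1 _).1 hR
    set r := F.pd P (F.a s y) with hr
    set b := F.a (-r) (F.a s y) with hbdef
    have hb : b ∈ P := hRi.1
    have hregb : F.Reg P P' τ τ' b := hs.shift (-r)
    have hN := F.N_nd hregb.1
    have hb0 := hregb.2 0 (by rw [F.zero]; exact hb)
    rw [F.zero] at hb0
    obtain ⟨k1, k2, k3, k4⟩ := hb0
    have hN' := F.N_nd k4
    have hshift : ∀ e, F.a e y = F.a (e - s + r) b := by
      intro e
      rw [hbdef, ← F.add, ← F.add]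
      congr 1; ring
    have hle : t - s + r ≤ F.nd P b := by
      by_contra hlt
      push Not at hlt
      apply hno (F.nd P b - r + s) (by linarith [hRi.2.2]) (by linarith)
      rw [mem_tr, hshift]
      have : F.nd P b - r + s - s + r = F.nd P b := by ring
      rw [this]
      exact hN.2.1
    have e1 : F.th P P' τ (F.a s y) = F.a (r * F.nd P' (τ b) / F.nd P b) (τ b) := by
      rw [hshift s]
      have : s - s + r = r := by ring
      rw [this]
      exact hregb.formula hb hRi.2.1 hRi.2.2.le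
    have hgen : ∀ e, s ≤ e → e ≤ t → F.th P P' τ (F.a e y)
        = F.a ((e - s) * F.nd P' (τ b) / F.nd P b) (F.th P P' τ (F.a s y)) := by
      intro e h1 h2
      rw [e1, ← F.add, hshift e, hregb.formula hb (by linarith [hRi.2.1]) (by linarith)]
      congr 1; ring
    have hpos : 0 < F.nd P' (τ b) / F.nd P b := div_pos hN'.1 hN.1
    refine ⟨(t - s) * F.nd P' (τ b) / F.nd P b, ?_, hgen t hst.le le_rfl, ?_⟩
    · rw [mul_div_assoc]; exact mul_pos (by linarith) hpos
    · intro e' h0 h1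
      refine ⟨s + e' * F.nd P b / F.nd P' (τ b), ?_, ?_, ?_⟩
      · have : 0 < e' * F.nd P b / F.nd P' (τ b) := div_pos (mul_pos h0 hN.1) hN'.1
        linarith
      · have : e' * F.nd P b / F.nd P' (τ b) < t - s := by
          rw [div_lt_iff₀ hN'.1, ← lt_div_iff₀ hN.1]
          exact h1
        linarith
      · have h2 : e' * F.nd P b / F.nd P' (τ b) < t - s := by
          rw [div_lt_iff₀ hN'.1, ← lt_div_iff₀ hN.1]
          exact h1
        have h3 : 0 < e' * F.nd P b / F.nd P' (τ b) := div_pos (mul_pos h0 hN.1) hN'.1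
        rw [hgen _ (by linarith) (by linarith)]
        congr 1
        have e1 := hN.1.ne'
        have e2 := hN'.1.ne'
        field_simp
        ring

theorem Conj.map_th [SFinite lam] (h : F.Conj P P' τ τ' c) :
    lam.map (F.th P P' τ) = c • lam := by
  classical
  have hth := F.measurable_th h.hP h.hP' h.mt
  ext E hE
  rw [Measure.map_apply hth hE, Measure.smul_apply, ← lintegral_indicator_one (hth hE),
    F.kac h.hP h.P0 h.P1 (measurable_one.indicator (hth hE))]
  let H : Y → ℝ≥0∞ := fun b' => ∑' r : ℚ,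
    (if 0 ≤ r ∧ r < F.nd P' b' then E.indicator 1 (F.a r b') else 0)
  have hHm : Measurable H := by
    refine Measurable.tsum fun r => ?_
    refine Measurable.ite ?_ ((measurable_one.indicator hE).comp (F.mp r).measurable)
      measurable_const
    apply measurableSet_setOfPred.2
    refine Measurable.and measurable_const ?_
    exact measurableSet_setOfPred.1
      ((F.measurable_nd h.hP') (MeasurableSet.of_discrete (s := {x | r < x})))
  have h1 : ∫⁻ b in P, ∑' r : ℚ, (if 0 ≤ r ∧ r < F.nd P b then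
      (F.th P P' τ ⁻¹' E).indicator 1 (F.a r b) else 0) ∂lam = ∫⁻ b in P, H (τ b) ∂lam := by
    refine lintegral_congr_ae ?_
    rw [Filter.EventuallyEq, ae_restrict_iff' h.hP]
    filter_upwards [h.reg] with b hb hbP
    have hN := F.N_nd hb.1
    have hb0 := hb.2 0 (by rw [F.zero]; exact hbP)
    rw [F.zero] at hb0
    obtain ⟨k1, k2, k3, k4⟩ := hb0
    have hN' := F.N_nd k4
    have hne : F.nd P' (τ b) / F.nd P b ≠ 0 := (div_pos hN'.1 hN.1).ne'
    simp only [H]
    refine Eq.trans ?_ ((Equiv.mulRight₀ _ hne).tsum_eq _)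
    refine tsum_congr fun r => ?_
    simp only [Equiv.mulRight₀_apply]
    have hiff : (0 ≤ r * (F.nd P' (τ b) / F.nd P b) ∧
        r * (F.nd P' (τ b) / F.nd P b) < F.nd P' (τ b)) ↔ (0 ≤ r ∧ r < F.nd P b) := by
      have hpos : 0 < F.nd P' (τ b) / F.nd P b := div_pos hN'.1 hN.1
      constructor
      · rintro ⟨h2, h3⟩
        refine ⟨?_, ?_⟩
        · by_contra hneg
          push Not at hneg
          have := mul_neg_of_neg_of_pos hneg hpos
          linarith
        · rw [← mul_div_assoc, div_lt_iff₀ hN.1, mul_comm] at h3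
          exact lt_of_mul_lt_mul_left h3 hN'.1.le
      · rintro ⟨h2, h3⟩
        refine ⟨mul_nonneg h2 hpos.le, ?_⟩
        rw [← mul_div_assoc, div_lt_iff₀ hN.1, mul_comm]
        exact mul_lt_mul_of_pos_left h3 hN'.1
    by_cases hc : 0 ≤ r ∧ r < F.nd P b
    · rw [if_pos hc, if_pos (hiff.2 hc)]
      have := hb.formula hbP hc.1 hc.2.le
      rw [mul_div_assoc] at this
      by_cases hE' : F.a (r * (F.nd P' (τ b) / F.nd P b)) (τ b) ∈ E
      · rw [indicator_of_mem hE', indicator_of_mem]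
        · rfl
        · rw [mem_preimage, this]; exact hE'
      · rw [indicator_of_notMem hE', indicator_of_notMem]
        rw [mem_preimage, this]; exact hE'
    · rw [if_neg hc, if_neg (fun hcc => hc (hiff.1 hcc))]
  rw [h1, ← lintegral_map hHm h.mt, h.map, lintegral_smul_measure,
    ← F.kac h.hP' h.P0' h.P1' (measurable_one.indicator hE), lintegral_indicator_one hE]

end QFlow

end Pool.Agent.Lib.MP_2b824f_an
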