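import Mathlib
import Pool.Agent.Lib.MP_2b824f_an.Coding
import Pool.Agent.Lib.MP_2b824f_an.Extend

open Set Filter Topology MeasureTheory
open scoped ENNReal

namespace Pool.Agent.Lib.MP_2b824f_an

variable {Y : Type*} [MeasurableSpace Y] {lam : Measure Y}

theorem meas_tendsto {A : ℕ → Set Y} {B : Set Y} (hA : ∀ n, MeasurableSet (A n))
    (hB : MeasurableSet B) (g : Y → ℝ≥0∞) (hgi : ∫⁻ y, g y ∂lam ≠ ∞)
    (hle : ∀ n, ∀ᵐ y ∂lam, y ∈ A n → 1 ≤ g y)
    (hlim : ∀ᵐ y ∂lam, ∀ᶠ n in atTop, (y ∈ A n ↔ y ∈ B)) :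
    Tendsto (fun n => lam (A n)) atTop (𝓝 (lam B)) := by
  have h1 : ∀ n, lam (A n) = ∫⁻ y, (A n).indicator 1 y ∂lam := fun n =>
    (lintegral_indicator_one (hA n)).symm
  simp_rw [h1]
  rw [← lintegral_indicator_one hB]
  refine tendsto_lintegral_of_dominated_convergence g
    (fun n => measurable_one.indicator (hA n)) ?_ hgi ?_
  · intro n
    filter_upwards [hle n] with y hy
    by_cases hyA : y ∈ A n
    · rw [indicator_of_mem hyA]; exact hy hyA
    · rw [indicator_of_notMem hyA]; exact bot_le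
  · filter_upwards [hlim] with y hy
    refine tendsto_const_nhds.congr' ?_
    filter_upwards [hy] with n hn
    by_cases hyB : y ∈ B
    · rw [indicator_of_mem hyB, indicator_of_mem (hn.2 hyB)]
    · rw [indicator_of_notMem hyB, indicator_of_notMem (fun h => hyB (hn.1 h))]

namespace QFlow

variable (F : QFlow lam)

/-- numerator set of the code -/
def cset (u : Y → ℝ) (p : ℝ × ℝ) : Set Y :=
  {y | y ∈ Pset u ∧ u y ≤ p.1 ∧ u (F.nx (Pset u) y) ≤ p.2}

/-- the code of a coded section: joint distribution function of `(u, u ∘ next)` -/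
noncomputable def fc (u : Y → ℝ) (p : ℝ × ℝ) : ℝ :=
  lam.real (F.cset u p) / lam.real (Pset u)

theorem measurableSet_cset {u : Y → ℝ} (hu : Measurable u) (p : ℝ × ℝ) :
    MeasurableSet (F.cset u p) := by
  have h1 : MeasurableSet {y | u y ≤ p.1} := measurableSet_le hu measurable_const
  have h2 : MeasurableSet {y | u (F.nx (Pset u) y) ≤ p.2} :=
    measurableSet_le (hu.comp (F.measurable_nx (measurableSet_Pset hu))) measurable_const
  exact (measurableSet_Pset hu).inter (h1.inter h2)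

theorem mem_Pset_iff_of_close {a b : ℝ} (ha : a = 0 ∨ (1 ≤ a ∧ a ≤ 2))
    (hb : b = 0 ∨ (1 ≤ b ∧ b ≤ 2)) (h : ¬ 1 ≤ edist a b) : (1 ≤ a ↔ 1 ≤ b) := by
  have h1 : |a - b| < 1 := by
    rw [← Real.dist_eq]
    by_contra hcon
    push Not at hcon
    apply h
    rw [edist_dist]
    exact ENNReal.one_le_ofReal.2 hcon
  rw [abs_lt] at h1
  constructor
  · intro h2
    rcases hb with h3 | h3
    · rw [h3] at h1; linarith [h1.2]
    · exact h3.1
  · intro h2
    rcases ha with h3 | h3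
    · rw [h3] at h1; linarith [h1.1]
    · exact h3.1

theorem cont_fc (ν : Measure ℝ) [NullSingletonClass ν] :
    Continuous fun u : {u : Lp ℝ 1 lam | Nice lam ν u} => F.fc (u.1 : Y → ℝ) := by
  refine continuous_of_fast _ fun u v h => ?_
  rw [tendsto_pi_nhds]
  intro p
  have h' : ∀ n, dist (u n).1 v.1 ≤ (1/2)^n := fun n => h n
  let U : ℕ → Y → ℝ := fun n => ((u n).1 : Y → ℝ)
  let V : Y → ℝ := (v.1 : Y → ℝ)
  have hU : ∀ n, Nice lam ν (U n) := fun n => (u n).2
  have hV : Nice lam ν V := v.2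
  have hUm : ∀ n, Measurable (U n) := fun n => (Lp.stronglyMeasurable (u n).1).measurable
  have hVm : Measurable V := (Lp.stronglyMeasurable v.1).measurable
  let S : Y → ℝ≥0∞ := fun y => ∑' n, edist (U n y) (V y)
  have hSm : Measurable S := measurable_fast _ _
  have hSi : ∫⁻ y, S y ∂lam ≠ ∞ := fast_bound h'
  have hPV : MeasurableSet (Pset V) := measurableSet_Pset hVm
  have hPV1 : lam (Pset V) ≠ ∞ := (Pset_lt_top v.1).ne
  have H1 := F.summ S hSm hSi
  have H2 := F.ae_shift (ae_lt_top hSm hSi)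
  have H3 : ∀ᵐ y ∂lam, ∀ n t, U n (F.a t y) = 0 ∨ (1 ≤ U n (F.a t y) ∧ U n (F.a t y) ≤ 2) :=
    ae_all_iff.2 fun n => F.ae_shift (hU n).vals
  have H3' := F.ae_shift hV.vals
  have H4 := F.good_ae hPV hV.pos hPV1
  have hnull : ∀ c : ℝ, ∀ᵐ y ∂lam, y ∈ Pset V → V y ≠ c := by
    intro c
    have h1 : ∀ᵐ x ∂((lam.restrict (Pset V)).map V), x ≠ c := by
      rw [hV.law]
      refine Measure.ae_smul_measure ?_ _
      rw [ae_iff]
      have : {a : ℝ | ¬ a ≠ c} = {c} := by ext; simp
      rw [this]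
      exact measure_singleton c
    have h2 := ae_of_ae_map hVm.aemeasurable h1
    rwa [ae_restrict_iff' hPV] at h2
  have H5 := hnull p.1
  have H6 := F.ae_shift (hnull p.2)
  have E1 : ∀ᵐ y ∂lam, ∀ s : ℚ, ∀ᶠ n in atTop, ∀ t, |t| ≤ s →
      (F.a t y ∈ Pset (U n) ↔ F.a t y ∈ Pset V) := by
    filter_upwards [H1, H3, H3'] with y h1 h3 h3' s
    have h4 := h1 s
    simp only [S] at h4
    rw [← ENNReal.tsum_prod (f := fun (t : {t : ℚ // |t| ≤ s}) n =>
      edist (U n (F.a t y)) (V (F.a t y)))] at h4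
    have h5 := ENNReal.finite_const_le_of_tsum_ne_top h4 one_ne_zero
    have h6 := (h5.image Prod.snd).bddAbove
    obtain ⟨n0, hn0⟩ := h6
    filter_upwards [eventually_gt_atTop n0] with n hn t ht
    refine mem_Pset_iff_of_close (h3 n t) (h3' t) ?_
    intro hcon
    have : n ≤ n0 := hn0 ⟨(⟨t, ht⟩, n), hcon, rfl⟩
    omega
  have hdom : ∫⁻ y, (S y + ‖V y‖ₑ) ∂lam ≠ ∞ := by
    rw [lintegral_add_left hSm]
    exact ENNReal.add_ne_top.2 ⟨hSi, (L1.integrable_coeFn v.1).2.ne⟩
  have hdomP : ∀ n y, y ∈ Pset (U n) → 1 ≤ S y + ‖V y‖ₑ := by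
    intro n y hy
    have h1 : (1 : ℝ≥0∞) ≤ ‖U n y‖ₑ := by
      rw [← ofReal_norm, Real.norm_eq_abs]
      exact ENNReal.one_le_ofReal.2 (le_trans hy (le_abs_self _))
    have h2 : ‖U n y‖ₑ ≤ edist (U n y) (V y) + ‖V y‖ₑ := by
      rw [edist_eq_enorm_sub]
      have := enorm_add_le (U n y - V y) (V y)
      simpa using this
    have h3 : edist (U n y) (V y) ≤ S y := ENNReal.le_tsum n
    exact h1.trans (h2.trans (add_le_add_left h3 _))
  -- denominators
  have L1 : Tendsto (fun n => lam (Pset (U n))) atTop (𝓝 (lam (Pset V))) := by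
    refine meas_tendsto (fun n => measurableSet_Pset (hUm n)) hPV _ hdom
      (fun n => Eventually.of_forall fun y hy => hdomP n y hy) ?_
    filter_upwards [E1] with y hy
    filter_upwards [hy 0] with n hn
    have := hn 0 (by simp)
    rwa [F.zero] at this
  -- numerators
  have L2 : Tendsto (fun n => lam (F.cset (U n) p)) atTop (𝓝 (lam (F.cset V p))) := by
    refine meas_tendsto (fun n => F.measurableSet_cset (hUm n) p) (F.measurableSet_cset hVm p) _
      hdom (fun n => Eventually.of_forall fun y hy => hdomP n y hy.1) ?_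
    filter_upwards [E1, H2, H4, H5, H6] with y h1 h2 h4 h5 h6
    have e0 : ∀ᶠ n in atTop, (y ∈ Pset (U n) ↔ y ∈ Pset V) := by
      filter_upwards [h1 0] with n hn
      have := hn 0 (by simp)
      rwa [F.zero] at this
    by_cases hyP : y ∈ Pset V
    · have hN := F.N_nd h4
      set d := F.nd (Pset V) y with hd
      have e1 : ∀ᶠ n in atTop, F.nx (Pset (U n)) y = F.a d y := by
        filter_upwards [h1 d] with n hn
        have : F.N (Pset (U n)) y d := by
          refine ⟨hN.1, (hn d (by rw [abs_of_pos hN.1])).2 hN.2.1, ?_⟩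
          intro e he hed hmem
          exact hN.2.2 e he hed ((hn e (by rw [abs_of_pos he]; exact hed.le)).1 hmem)
        rw [nx, F.nd_eq this]
      have hlim : ∀ t, Tendsto (fun n => U n (F.a t y)) atTop (𝓝 (V (F.a t y))) := fun t =>
        fast_tendsto (u := U) (v := V) (h2 t).ne
      have hcmp : ∀ (x : ℕ → ℝ) (z c : ℝ), Tendsto x atTop (𝓝 z) → z ≠ c →
          ∀ᶠ n in atTop, (x n ≤ c ↔ z ≤ c) := by
        intro x z c hx hzc
        rcases lt_or_gt_of_ne hzc with hlt | hgt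
        · filter_upwards [hx.eventually (gt_mem_nhds hlt)] with n hn
          exact ⟨fun _ => hlt.le, fun _ => hn.le⟩
        · filter_upwards [hx.eventually (lt_mem_nhds hgt)] with n hn
          exact ⟨fun h => absurd h (not_le.2 hn), fun h => absurd h (not_le.2 hgt)⟩
      have e2 := hcmp _ _ p.1 (hlim 0) (by rw [F.zero]; exact h5 hyP)
      have e3 := hcmp _ _ p.2 (hlim d) (h6 d hN.2.1)
      filter_upwards [e0, e1, e2, e3] with n k0 k1 k2 k3
      rw [F.zero] at k2
      have hnx : F.nx (Pset V) y = F.a d y := rfl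
      change (y ∈ Pset (U n) ∧ U n y ≤ p.1 ∧ U n (F.nx (Pset (U n)) y) ≤ p.2) ↔
        (y ∈ Pset V ∧ V y ≤ p.1 ∧ V (F.nx (Pset V) y) ≤ p.2)
      rw [k0, k2, k1, k3, hnx]
    · filter_upwards [e0] with n hn
      constructor
      · intro hm; exact absurd (hn.1 hm.1) hyP
      · intro hm; exact absurd hm.1 hyP
  have hfinV : lam (F.cset V p) ≠ ∞ := by
    refine ne_top_of_le_ne_top hPV1 (measure_mono ?_)
    intro y hy; exact hy.1
  have R1 := (ENNReal.tendsto_toReal hPV1).comp L1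
  have R2 := (ENNReal.tendsto_toReal hfinV).comp L2
  exact R2.div R1 (ENNReal.toReal_pos hV.pos hPV1).ne'

end QFlow

end Pool.Agent.Lib.MP_2b824f_an
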