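import Mathlib

open Set MeasureTheory

namespace Pool.Agent.Lib.MP_2b824f_an

variable {X : Type*} [MeasurableSpace X]

/-- First return time: the least `n ≥ 1` with `T^n x ∈ A` (and `0` if there is no such `n`). -/
noncomputable def returnTime (T : X → X) (A : Set X) (x : X) : ℕ :=
  sInf {n : ℕ | 1 ≤ n ∧ T^[n] x ∈ A}

/-- The induced (first return) map `T_A x = T^(n_A x) x`. -/
noncomputable def inducedMap (T : X → X) (A : Set X) (x : X) : X := T^[returnTime T A x] x

/-- Measure-theoretic isomorphism (modulo null sets) of `(X, α, T)` and `(X, β, S)`. -/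
def Isomorphic (α : Measure X) (T : X → X) (β : Measure X) (S : X → X) : Prop :=
  ∃ φ ψ : X → X, MeasurePreserving φ α β ∧ MeasurePreserving ψ β α ∧
    (∀ᵐ x ∂α, ψ (φ x) = x) ∧ (∀ᵐ x ∂β, φ (ψ x) = x) ∧ ∀ᵐ x ∂α, φ (T x) = S (φ x)

/-- Kakutani equivalence of two maps of the probability space `(X, μ)`: there are sets `A`, `B` of
positive measure such that `T_A` on `(A, μ(·|A))` and `S_B` on `(B, μ(·|B))` are isomorphic. -/
def KakutaniRel (μ : Measure X) (T S : X → X) : Prop :=
  ∃ A B : Set X, MeasurableSet A ∧ MeasurableSet B ∧ 0 < μ A ∧ 0 < μ B ∧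
    Isomorphic (ProbabilityTheory.cond μ A) (inducedMap T A)
      (ProbabilityTheory.cond μ B) (inducedMap S B)

omit [MeasurableSpace X] in
theorem returnTime_eq {T : X → X} {A : Set X} {x : X} {m : ℕ} (h1 : 1 ≤ m) (h2 : T^[m] x ∈ A)
    (h3 : ∀ i, 1 ≤ i → i < m → T^[i] x ∉ A) : returnTime T A x = m := by
  apply le_antisymm
  · exact Nat.sInf_le ⟨h1, h2⟩
  · by_contra hcon
    push Not at hcon
    have hne : {n : ℕ | 1 ≤ n ∧ T^[n] x ∈ A}.Nonempty := ⟨m, h1, h2⟩
    have hmem := Nat.sInf_mem hne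
    exact h3 _ hmem.1 hcon hmem.2

omit [MeasurableSpace X] in
theorem returnTime_spec {T : X → X} {A : Set X} {x : X} (h : ∃ n, 1 ≤ n ∧ T^[n] x ∈ A) :
    1 ≤ returnTime T A x ∧ T^[returnTime T A x] x ∈ A ∧
      ∀ i, 1 ≤ i → i < returnTime T A x → T^[i] x ∉ A := by
  obtain ⟨n, hn⟩ := h
  have hne : {n : ℕ | 1 ≤ n ∧ T^[n] x ∈ A}.Nonempty := ⟨n, hn⟩
  have hmem := Nat.sInf_mem hne
  refine ⟨hmem.1, hmem.2, fun i h1 h2 h3 => ?_⟩
  exact absurd (Nat.sInf_le (show i ∈ {n : ℕ | 1 ≤ n ∧ T^[n] x ∈ A} from ⟨h1, h3⟩)) (not_le.2 h2)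

theorem measurable_sInf_nat {p : ℕ → X → Prop} (hp : ∀ n, MeasurableSet {x | p n x}) :
    Measurable fun x => sInf {n : ℕ | p n x} := by
  refine measurable_to_countable' fun m => ?_
  have h1 : ∀ n, Measurable fun x => p n x := fun n => measurableSet_setOfPred.1 (hp n)
  have : (fun x => sInf {n : ℕ | p n x}) ⁻¹' {m} =
      {x | (p m x ∧ ∀ i, i < m → ¬ p i x) ∨ (m = 0 ∧ ∀ n, ¬ p n x)} := by
    ext x
    simp only [mem_preimage, mem_singleton_iff, mem_ofPred_eq]
    constructor
    · intro h
      by_cases hne : {n : ℕ | p n x}.Nonempty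
      · left
        have hmem := Nat.sInf_mem hne
        rw [h] at hmem
        refine ⟨hmem, fun i hi hpi => ?_⟩
        have := Nat.sInf_le (show i ∈ {n : ℕ | p n x} from hpi)
        omega
      · right
        rw [not_nonempty_iff_eq_empty] at hne
        rw [hne, Nat.sInf_empty] at h
        refine ⟨h.symm, fun n hn => ?_⟩
        have : n ∈ {n : ℕ | p n x} := hn
        rw [hne] at this
        exact this
    · rintro (⟨h2, h3⟩ | ⟨h2, h3⟩)
      · apply le_antisymm
        · exact Nat.sInf_le h2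
        · by_contra hcon
          push Not at hcon
          have hmem := Nat.sInf_mem (⟨m, h2⟩ : {n : ℕ | p n x}.Nonempty)
          exact h3 _ hcon hmem
      · have : {n : ℕ | p n x} = ∅ := by
          ext n
          simp only [mem_ofPred_eq, mem_empty_iff_false, iff_false]
          exact h3 n
        rw [this, Nat.sInf_empty, h2]
  rw [this]
  apply measurableSet_setOfPred.2
  refine Measurable.or (Measurable.and (h1 m) (Measurable.forall fun i => ?_)) (Measurable.and
    measurable_const (Measurable.forall fun n => (h1 n).not))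
  exact Measurable.imp measurable_const (h1 i).not

theorem measurable_returnTime {T : X → X} (hT : Measurable T) {A : Set X}
    (hA : MeasurableSet A) : Measurable (returnTime T A) := by
  refine measurable_sInf_nat (p := fun n x => 1 ≤ n ∧ T^[n] x ∈ A) fun n => ?_
  apply measurableSet_setOfPred.2
  exact Measurable.and measurable_const (measurableSet_setOfPred.1 ((hT.iterate n) hA))

end Pool.Agent.Lib.MP_2b824f_an
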