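import Mathlib
import Pool.Agent.Lib.MP_2b824f_an.CodeMap

open Set Filter Topology MeasureTheory
open scoped ENNReal

namespace Pool.Agent.Lib.MP_2b824f_an

theorem ext_Iic_prod {m m' : Measure (ℝ × ℝ)} [IsFiniteMeasure m]
    (h : ∀ s t, m (Iic s ×ˢ Iic t) = m' (Iic s ×ˢ Iic t)) (hu : m univ = m' univ) : m = m' := by
  have hspan : IsCountablySpanning (range (Iic : ℝ → Set ℝ)) := by
    refine ⟨fun n : ℕ => Iic (n : ℝ), fun n => ⟨n, rfl⟩, ?_⟩
    rw [eq_univ_iff_forall]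
    intro x
    obtain ⟨n, hn⟩ := exists_nat_ge x
    exact mem_iUnion.2 ⟨n, hn⟩
  refine ext_of_generate_finite (image2 (· ×ˢ ·) (range Iic) (range Iic)) ?_ ?_ ?_ hu
  · rw [← generateFrom_prod_eq hspan hspan, ← borel_eq_generateFrom_Iic,
      ← BorelSpace.measurable_eq]
  · exact isPiSystem_Iic.prod isPiSystem_Iic
  · rintro _ ⟨_, ⟨s, rfl⟩, _, ⟨t, rfl⟩, rfl⟩
    exact h s t

variable {Y : Type*} [MeasurableSpace Y] {lam : Measure Y}

theorem Pset_congr {u w : Y → ℝ} (h : u =ᵐ[lam] w) : (Pset u : Set Y) =ᵐ[lam] (Pset w : Set Y) := by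
  filter_upwards [h] with y hy
  change (1 ≤ u y) = (1 ≤ w y)
  rw [hy]

theorem Nice.congr {ν : Measure ℝ} {u w : Y → ℝ} (h : Nice lam ν u) (huw : u =ᵐ[lam] w) :
    Nice lam ν w where
  vals := by
    filter_upwards [h.vals, huw] with y h1 h2
    rwa [← h2]
  pos := by
    rw [← measure_congr (Pset_congr huw)]; exact h.pos
  law := by
    rw [← measure_congr (Pset_congr huw), ← h.law, ← Measure.restrict_congr_set (Pset_congr huw)]
    exact (Measure.map_congr (ae_restrict_of_ae huw)).symm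
  inj := by
    obtain ⟨G, hG, hGe⟩ := h.inj
    refine ⟨G, hG, ?_⟩
    filter_upwards [hGe, huw] with y h1 h2 h3
    rw [← h2]
    apply h1
    change 1 ≤ u y
    rw [h2]; exact h3

namespace QFlow

variable (F : QFlow lam)

open Classical in
omit [MeasurableSpace Y] in
theorem choose_congr {p q : ℚ → Prop} (h : p = q) :
    (if h : ∃ d, p d then Classical.choose h else 0) =
      (if h : ∃ d, q d then Classical.choose h else 0) := by
  subst h; rfl

theorem nx_congr {u w : Y → ℝ} (h : u =ᵐ[lam] w) :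
    ∀ᵐ y ∂lam, F.nx (Pset u) y = F.nx (Pset w) y := by
  filter_upwards [F.ae_shift h] with y hy
  have h1 : ∀ t, F.a t y ∈ Pset u ↔ F.a t y ∈ Pset w := by
    intro t
    change 1 ≤ u (F.a t y) ↔ 1 ≤ w (F.a t y)
    rw [hy t]
  have h2 : F.N (Pset u) y = F.N (Pset w) y := by
    funext d
    simp only [N, h1]
  have h3 : F.nd (Pset u) y = F.nd (Pset w) y := choose_congr h2
  rw [nx, nx, h3]

theorem fc_congr {u w : Y → ℝ} (h : u =ᵐ[lam] w) : F.fc u = F.fc w := by
  funext p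
  have h1 : (F.cset u p : Set Y) =ᵐ[lam] (F.cset w p : Set Y) := by
    filter_upwards [h, F.nx_congr h, F.ae_shift h] with y hy hnx hs
    have h2 : u (F.nx (Pset w) y) = w (F.nx (Pset w) y) := hs _
    change (1 ≤ u y ∧ u y ≤ p.1 ∧ u (F.nx (Pset u) y) ≤ p.2)
      = (1 ≤ w y ∧ w y ≤ p.1 ∧ w (F.nx (Pset w) y) ≤ p.2)
    rw [hnx, h2, hy]
  rw [fc, fc, measureReal_congr h1, measureReal_congr (Pset_congr h)]

/-- joint law of `(u, u ∘ next)` -/
noncomputable def jlaw (u : Y → ℝ) : Measure (ℝ × ℝ) :=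
  (lam (Pset u))⁻¹ • (lam.restrict (Pset u)).map fun y => (u y, u (F.nx (Pset u) y))

theorem jlaw_apply {u : Y → ℝ} (hu : Measurable u) (s t : ℝ) :
    F.jlaw u (Iic s ×ˢ Iic t) = (lam (Pset u))⁻¹ * lam (F.cset u (s, t)) := by
  have hm : Measurable fun y => (u y, u (F.nx (Pset u) y)) :=
    hu.prodMk (hu.comp (F.measurable_nx (measurableSet_Pset hu)))
  rw [jlaw, Measure.smul_apply, smul_eq_mul,
    Measure.map_apply hm (measurableSet_Iic.prod measurableSet_Iic),
    Measure.restrict_apply (hm (measurableSet_Iic.prod measurableSet_Iic))]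
  congr 2
  ext y
  constructor
  · rintro ⟨⟨h1, h2⟩, h3⟩; exact ⟨h3, h1, h2⟩
  · rintro ⟨h3, h1, h2⟩; exact ⟨⟨h1, h2⟩, h3⟩

theorem jlaw_univ {u : Y → ℝ} (hu : Measurable u) (h0 : lam (Pset u) ≠ 0)
    (h1 : lam (Pset u) ≠ ∞) : F.jlaw u univ = 1 := by
  have hm : Measurable fun y => (u y, u (F.nx (Pset u) y)) :=
    hu.prodMk (hu.comp (F.measurable_nx (measurableSet_Pset hu)))
  rw [jlaw, Measure.smul_apply, smul_eq_mul, Measure.map_apply hm MeasurableSet.univ,
    preimage_univ, Measure.restrict_apply_univ, ENNReal.inv_mul_cancel h0 h1]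

theorem jlaw_eq {u : Y → ℝ} (hu : Measurable u) (h0 : lam (Pset u) ≠ 0) (h1 : lam (Pset u) ≠ ∞)
    {m : Measure (ℝ × ℝ)} [IsProbabilityMeasure m]
    (h : ∀ s t, F.fc u (s, t) = m.real (Iic s ×ˢ Iic t)) : F.jlaw u = m := by
  have : IsFiniteMeasure (F.jlaw u) := ⟨by rw [F.jlaw_univ hu h0 h1]; exact ENNReal.one_lt_top⟩
  refine ext_Iic_prod (fun s t => ?_) ?_
  · have h2 := h s t
    rw [F.jlaw_apply hu]
    have h3 : (lam (Pset u))⁻¹ * lam (F.cset u (s, t)) ≠ ∞ := by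
      refine ENNReal.mul_ne_top (ENNReal.inv_ne_top.2 h0) ?_
      exact ne_top_of_le_ne_top h1 (measure_mono fun y hy => hy.1)
    rw [← ENNReal.toReal_eq_toReal_iff' h3 (measure_ne_top m _)]
    rw [ENNReal.toReal_mul, ENNReal.toReal_inv]
    rw [measureReal_def] at h2
    rw [← h2, fc, measureReal_def, measureReal_def]
    ring
  · rw [F.jlaw_univ hu h0 h1, measure_univ]

/-- transfer of almost sure relations between codes of consecutive points -/
theorem jlaw_ae {u : Y → ℝ} (hu : Measurable u) (h1 : lam (Pset u) ≠ ∞)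
    {r : ℝ × ℝ → Prop} (h : ∀ᵐ v ∂(F.jlaw u), r v) :
    ∀ᵐ y ∂lam, y ∈ Pset u → r (u y, u (F.nx (Pset u) y)) := by
  have hm : Measurable fun y => (u y, u (F.nx (Pset u) y)) :=
    hu.prodMk (hu.comp (F.measurable_nx (measurableSet_Pset hu)))
  rw [jlaw] at h
  have h2 := (Measure.ae_ennreal_smul_measure_iff (ENNReal.inv_ne_zero.2 h1)).1 h
  have h3 := ae_of_ae_map hm.aemeasurable h2
  rwa [ae_restrict_iff' (measurableSet_Pset hu)] at h3

theorem jlaw_ae' {u : Y → ℝ} (hu : Measurable u)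
    {r : ℝ × ℝ → Prop} (hr : MeasurableSet {v | r v})
    (h : ∀ᵐ y ∂lam, y ∈ Pset u → r (u y, u (F.nx (Pset u) y))) : ∀ᵐ v ∂(F.jlaw u), r v := by
  have hm : Measurable fun y => (u y, u (F.nx (Pset u) y)) :=
    hu.prodMk (hu.comp (F.measurable_nx (measurableSet_Pset hu)))
  rw [jlaw]
  refine Measure.ae_smul_measure ?_ _
  rw [ae_map_iff hm.aemeasurable hr, ae_restrict_iff' (measurableSet_Pset hu)]
  exact h

end QFlow

/-- transfer of almost sure properties of codes -/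
theorem Nice.ae_code {ν : Measure ℝ} {u : Y → ℝ} (h : Nice lam ν u) (hu : Measurable u)
    {r : ℝ → Prop} (hr : ∀ᵐ v ∂ν, r v) : ∀ᵐ y ∂lam, y ∈ Pset u → r (u y) := by
  have h1 : ∀ᵐ v ∂((lam.restrict (Pset u)).map u), r v := by
    rw [h.law]; exact Measure.ae_smul_measure hr _
  have h2 := ae_of_ae_map hu.aemeasurable h1
  rwa [ae_restrict_iff' (measurableSet_Pset hu)] at h2

theorem Nice.ae_code' {ν : Measure ℝ} {u : Y → ℝ} (h : Nice lam ν u) (hu : Measurable u)
    {r : ℝ → Prop} (hr : MeasurableSet {v | r v}) (h1 : ∀ᵐ y ∂lam, y ∈ Pset u → r (u y)) :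
    ∀ᵐ v ∂ν, r v := by
  have h2 : ∀ᵐ v ∂((lam.restrict (Pset u)).map u), r v := by
    rw [ae_map_iff hu.aemeasurable hr, ae_restrict_iff' (measurableSet_Pset hu)]
    exact h1
  rw [h.law] at h2
  exact (Measure.ae_ennreal_smul_measure_iff h.pos).1 h2

theorem Nice.map_G {ν : Measure ℝ} {u : Y → ℝ} (h : Nice lam ν u) (hu : Measurable u)
    (h1 : lam (Pset u) ≠ ∞) {G : ℝ → Y} (hG : Measurable G)
    (hGe : ∀ᵐ y ∂lam, y ∈ Pset u → G (u y) = y) :
    ν.map G = (lam (Pset u))⁻¹ • lam.restrict (Pset u) := by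
  have h2 : ν = (lam (Pset u))⁻¹ • (lam.restrict (Pset u)).map u := by
    rw [h.law, smul_smul, ENNReal.inv_mul_cancel h.pos h1, one_smul]
  have h3 : (G ∘ u) =ᵐ[lam.restrict (Pset u)] id := by
    rw [Filter.EventuallyEq, ae_restrict_iff' (measurableSet_Pset hu)]
    exact hGe
  rw [h2, Measure.map_smul, Measure.map_map hG hu, Measure.map_congr h3, Measure.map_id]

namespace QFlow

variable (F : QFlow lam)

theorem conj_of_jlaw_eq [StandardBorelSpace Y] {ν : Measure ℝ}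
    {u u' : Y → ℝ} (hu : Measurable u) (hu' : Measurable u') (h : Nice lam ν u)
    (h' : Nice lam ν u') (ht : lam (Pset u) ≠ ∞) (ht' : lam (Pset u') ≠ ∞)
    (heq : F.jlaw u = F.jlaw u') {G G' : ℝ → Y} (hG : Measurable G) (hG' : Measurable G')
    (hGe : ∀ᵐ y ∂lam, y ∈ Pset u → G (u y) = y)
    (hGe' : ∀ᵐ y ∂lam, y ∈ Pset u' → G' (u' y) = y) :
    F.Conj (Pset u) (Pset u') (G' ∘ u) (G ∘ u') (lam (Pset u) / lam (Pset u')) := by
  have hP := measurableSet_Pset hu
  have hP' := measurableSet_Pset hu'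
  have hnx' := F.measurable_nx hP'
  -- the code of `G' v` is `v`
  have A0 : ∀ᵐ v ∂ν, G' v ∈ Pset u' ∧ u' (G' v) = v := by
    refine h'.ae_code' hu' ?_ ?_
    · apply measurableSet_setOfPred.2
      exact Measurable.and (measurableSet_setOfPred.1 (hG' hP')) ((hu'.comp hG').eq measurable_id)
    · filter_upwards [hGe'] with y hy hyP
      rw [hy hyP]
      exact ⟨hyP, rfl⟩
  have A := h.ae_code hu A0
  -- relation
  have hr : MeasurableSet {p : ℝ × ℝ | p.2 = u' (F.nx (Pset u') (G' p.1))} :=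
    measurableSet_eq_fun measurable_snd (hu'.comp (hnx'.comp (hG'.comp measurable_fst)))
  have C0 : ∀ᵐ v ∂(F.jlaw u'), v.2 = u' (F.nx (Pset u') (G' v.1)) := by
    refine F.jlaw_ae' hu' hr ?_
    filter_upwards [hGe'] with y hy hyP
    rw [hy hyP]
  rw [← heq] at C0
  have C := F.jlaw_ae hu ht C0
  -- next points are coded
  have D0 : ∀ᵐ v ∂ν, G' (u' (F.nx (Pset u') (G' v))) = F.nx (Pset u') (G' v) := by
    refine h'.ae_code' hu' ?_ ?_
    · exact measurableSet_eq_fun (hG'.comp (hu'.comp (hnx'.comp hG'))) (hnx'.comp hG')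
    · filter_upwards [hGe', F.ae_shift hGe', F.good_ae hP' h'.pos ht'] with y h1 h2 h3 hyP
      rw [h1 hyP]
      exact h2 _ (F.nx_mem h3)
  have D := h.ae_code hu D0
  refine ⟨hP, hP', h.pos, ht, h'.pos, ht', hG'.comp hu, hG.comp hu', ?_, ?_, ?_, ?_⟩
  · exact (ENNReal.div_pos h.pos ht').ne'
  · exact ENNReal.div_ne_top ht h'.pos
  · filter_upwards [A, C, D, hGe] with b hA hC hD hB hbP
    obtain ⟨a1, a2⟩ := hA hbP
    simp only [Function.comp_apply]
    refine ⟨a1, ?_, ?_⟩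
    · rw [a2]; exact hB hbP
    · have hC' : u (F.nx (Pset u) b) = u' (F.nx (Pset u') (G' (u b))) := hC hbP
      rw [hC']
      exact (hD hbP).symm
  · rw [← Measure.map_map hG' hu, h.law, Measure.map_smul, h'.map_G hu' ht' hG' hGe', smul_smul]
    rfl

end QFlow

end Pool.Agent.Lib.MP_2b824f_an
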