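import Mathlib
import Pool.Agent.Lib.MP_2b824f_an.Homog

open Set Filter Topology MeasureTheory
open scoped ENNReal

namespace Pool.Agent.Lib.MP_2b824f_an

variable {Y : Type*} [MeasurableSpace Y] {lam : Measure Y}

theorem memLp_cmp {Θ : Y → Y} {d : ℝ≥0∞} (hΘ : Measurable Θ) (hd : d ≠ ∞)
    (hmap : lam.map Θ = d • lam) (v : Lp ℝ 1 lam) : MemLp ((v : Y → ℝ) ∘ Θ) 1 lam := by
  refine MemLp.comp_of_map ?_ hΘ.aemeasurable
  rw [hmap]
  exact (Lp.memLp v).smul_measure hd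

/-- composition with a scaling map -/
noncomputable def cmp {Θ : Y → Y} {d : ℝ≥0∞} (hΘ : Measurable Θ) (hd : d ≠ ∞)
    (hmap : lam.map Θ = d • lam) (v : Lp ℝ 1 lam) : Lp ℝ 1 lam :=
  (memLp_cmp hΘ hd hmap v).toLp _

theorem coe_cmp {Θ : Y → Y} {d : ℝ≥0∞} (hΘ : Measurable Θ) (hd : d ≠ ∞)
    (hmap : lam.map Θ = d • lam) (v : Lp ℝ 1 lam) :
    (cmp hΘ hd hmap v : Y → ℝ) =ᵐ[lam] (v : Y → ℝ) ∘ Θ := MemLp.coeFn_toLp _

theorem edist_cmp {Θ : Y → Y} {d : ℝ≥0∞} (hΘ : Measurable Θ) (hd : d ≠ ∞)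
    (hmap : lam.map Θ = d • lam) (v w : Lp ℝ 1 lam) :
    edist (cmp hΘ hd hmap v) (cmp hΘ hd hmap w) = d * edist v w := by
  rw [L1.edist_def, L1.edist_def]
  have hm : Measurable fun y => edist (v y) (w y) :=
    (Lp.stronglyMeasurable v).measurable.edist (Lp.stronglyMeasurable w).measurable
  have h1 : ∫⁻ y, edist (cmp hΘ hd hmap v y) (cmp hΘ hd hmap w y) ∂lam
      = ∫⁻ y, edist (v (Θ y)) (w (Θ y)) ∂lam := by
    refine lintegral_congr_ae ?_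
    filter_upwards [coe_cmp hΘ hd hmap v, coe_cmp hΘ hd hmap w] with y h1 h2
    rw [h1, h2]; rfl
  rw [h1, ← lintegral_map hm hΘ, hmap, lintegral_smul_measure, smul_eq_mul]

theorem continuous_cmp {Θ : Y → Y} {d : ℝ≥0∞} (hΘ : Measurable Θ) (hd : d ≠ ∞)
    (hmap : lam.map Θ = d • lam) : Continuous (cmp hΘ hd hmap) := by
  have : LipschitzWith d.toNNReal (cmp hΘ hd hmap) := by
    intro v w
    rw [edist_cmp, ENNReal.coe_toNNReal hd]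
  exact this.continuous

theorem qmp_of_map {Θ : Y → Y} {d : ℝ≥0∞} (hΘ : Measurable Θ)
    (hmap : lam.map Θ = d • lam) : Measure.QuasiMeasurePreserving Θ lam lam := by
  refine ⟨hΘ, ?_⟩
  rw [hmap]
  exact Measure.smul_absolutelyContinuous

theorem cmp_cmp {Θ Θ' : Y → Y} {d d' : ℝ≥0∞} (hΘ : Measurable Θ) (hd : d ≠ ∞)
    (hmap : lam.map Θ = d • lam) (hΘ' : Measurable Θ') (hd' : d' ≠ ∞)
    (hmap' : lam.map Θ' = d' • lam) (hinv : ∀ᵐ y ∂lam, Θ' (Θ y) = y) (v : Lp ℝ 1 lam) :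
    cmp hΘ hd hmap (cmp hΘ' hd' hmap' v) = v := by
  refine Lp.ext ?_
  filter_upwards [coe_cmp hΘ hd hmap (cmp hΘ' hd' hmap' v), hinv,
    (qmp_of_map hΘ hmap).ae (coe_cmp hΘ' hd' hmap' v)] with y h1 h2 h3
  rw [h1, Function.comp_apply, h3, Function.comp_apply, h2]

namespace QFlow

variable (F : QFlow lam)

/-- scaling symmetries of the leaf structure -/
structure Sym (Θ Θ' : Y → Y) (c : ℝ≥0∞) : Prop where
  m : Measurable Θ
  m' : Measurable Θ'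
  c0 : c ≠ 0
  c1 : c ≠ ∞
  map : lam.map Θ = c • lam
  map' : lam.map Θ' = c⁻¹ • lam
  inv : ∀ᵐ y ∂lam, Θ' (Θ y) = y
  inv' : ∀ᵐ y ∂lam, Θ (Θ' y) = y
  ord' : ∀ᵐ y ∂lam, ∀ s t, s < t → F.Ord Θ' y s t

variable {F}

theorem Conj.sym [StandardBorelSpace Y] [SFinite lam] {P P' : Set Y} {τ τ' : Y → Y} {c : ℝ≥0∞}
    (h : F.Conj P P' τ τ' c) : F.Sym (F.th P P' τ) (F.th P' P τ') c where
  m := F.measurable_th h.hP h.hP' h.mt
  m' := F.measurable_th h.hP' h.hP h.mt'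
  c0 := h.c0
  c1 := h.c1
  map := h.map_th
  map' := h.symm.map_th
  inv := by
    filter_upwards [h.reg] with y hy
    exact hy.inv
  inv' := by
    filter_upwards [h.symm.reg] with y hy
    exact hy.inv
  ord' := by
    filter_upwards [h.symm.reg] with y hy
    exact hy.ord

theorem Sym.next {Θ Θ' : Y → Y} {c : ℝ≥0∞} (h : F.Sym Θ Θ' c) {V : Set Y}
    (hV : MeasurableSet V) (h0 : lam V ≠ 0) (h1 : lam V ≠ ∞) :
    ∀ᵐ y ∂lam, Θ' (F.nx (Θ' ⁻¹' V) y) = F.nx V (Θ' y) := by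
  have hm : lam (Θ' ⁻¹' V) = c⁻¹ * lam V := by
    rw [← Measure.map_apply h.m' hV, h.map']; rfl
  have h2 : lam (Θ' ⁻¹' V) ≠ 0 := by
    rw [hm]; exact mul_ne_zero (ENNReal.inv_ne_zero.2 h.c1) h0
  have h3 : lam (Θ' ⁻¹' V) ≠ ∞ := by
    rw [hm]; exact ENNReal.mul_ne_top (ENNReal.inv_ne_top.2 h.c0) h1
  filter_upwards [F.good_ae (h.m' hV) h2 h3, h.ord'] with y hg ho
  have hN := F.N_nd hg
  obtain ⟨d', hd', e1, f1⟩ := ho 0 _ hN.1
  rw [F.zero] at e1 f1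
  have hN' : F.N V (Θ' y) d' := by
    refine ⟨hd', ?_, ?_⟩
    · rw [← e1]; exact hN.2.1
    · intro e' he' hed' hmem
      obtain ⟨e, k1, k2, k3⟩ := f1 e' he' hed'
      apply hN.2.2 e k1 k2
      rw [mem_preimage, k3]; exact hmem
  rw [nx, nx, F.nd_eq hN', e1]

theorem Sym.nice {Θ Θ' : Y → Y} {c : ℝ≥0∞} (h : F.Sym Θ Θ' c) {ν : Measure ℝ} {v : Y → ℝ}
    (hv : Measurable v) (hn : Nice lam ν v) : Nice lam ν (v ∘ Θ') := by
  have hq := qmp_of_map h.m' h.map'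
  have hP := measurableSet_Pset hv
  have hm : lam (Θ' ⁻¹' (Pset v)) = c⁻¹ * lam (Pset v) := by
    rw [← Measure.map_apply h.m' hP, h.map']; rfl
  have hpre : Pset (v ∘ Θ') = Θ' ⁻¹' (Pset v) := rfl
  refine ⟨hq.ae hn.vals, ?_, ?_, ?_⟩
  · rw [hpre, hm]; exact mul_ne_zero (ENNReal.inv_ne_zero.2 h.c1) hn.pos
  · rw [hpre, ← Measure.map_map hv h.m', ← Measure.restrict_map h.m' hP, h.map',
      Measure.restrict_smul, Measure.map_smul, hn.law, hm, smul_smul]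
  · obtain ⟨G, hG, hGe⟩ := hn.inj
    refine ⟨Θ ∘ G, h.m.comp hG, ?_⟩
    filter_upwards [hq.ae hGe, h.inv'] with y h1 h2 h3
    simp only [Function.comp_apply]
    rw [h1 h3, h2]

theorem Sym.fc_eq {Θ Θ' : Y → Y} {c : ℝ≥0∞} (h : F.Sym Θ Θ' c) {v : Y → ℝ}
    (hv : Measurable v) (h0 : lam (Pset v) ≠ 0) (h1 : lam (Pset v) ≠ ∞) :
    F.fc (v ∘ Θ') = F.fc v := by
  funext p
  have hP := measurableSet_Pset hv
  have hpre : Pset (v ∘ Θ') = Θ' ⁻¹' (Pset v) := rfl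
  have hm : ∀ {E : Set Y}, MeasurableSet E → lam.real (Θ' ⁻¹' E) = (c⁻¹).toReal * lam.real E := by
    intro E hE
    rw [measureReal_def, ← Measure.map_apply h.m' hE, h.map', Measure.smul_apply, smul_eq_mul,
      ENNReal.toReal_mul]
    rfl
  have h2 : (F.cset (v ∘ Θ') p : Set Y) =ᵐ[lam] (Θ' ⁻¹' (F.cset v p) : Set Y) := by
    filter_upwards [h.next hP h0 h1] with y hy
    change (1 ≤ v (Θ' y) ∧ v (Θ' y) ≤ p.1 ∧ v (Θ' (F.nx (Θ' ⁻¹' (Pset v)) y)) ≤ p.2)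
      = (1 ≤ v (Θ' y) ∧ v (Θ' y) ≤ p.1 ∧ v (F.nx (Pset v) (Θ' y)) ≤ p.2)
    rw [hy]
  rw [fc, fc, measureReal_congr h2, hpre, hm (F.measurableSet_cset hv p), hm hP]
  have hc : (c⁻¹).toReal ≠ 0 := by
    rw [ENNReal.toReal_ne_zero]
    exact ⟨ENNReal.inv_ne_zero.2 h.c1, ENNReal.inv_ne_top.2 h.c0⟩
  exact mul_div_mul_left _ _ hc

end QFlow

end Pool.Agent.Lib.MP_2b824f_an
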