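import Mathlib
import Pool.Agent.Lib.MP_2b824f_an.Pull

open Set Filter Topology MeasureTheory
open scoped ENNReal

namespace Pool.Agent.Lib.MP_2b824f_an

variable {Y : Type*} [MeasurableSpace Y] {lam : Measure Y}

namespace QFlow

variable {F : QFlow lam}

theorem Reg.notMem {P P' : Set Y} {τ τ' : Y → Y} {y : Y} (h : F.Reg P P' τ τ' y)
    (hy : y ∉ P) : F.th P P' τ y ∉ P' := by
  have hR := F.R_pd h.1
  have hRi := (F.R_iff h.1 _).1 hR
  set r := F.pd P y with hr
  set b := F.a (-r) y with hbdef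
  have hb : b ∈ P := hRi.1
  have hregb : F.Reg P P' τ τ' b := h.shift (-r)
  have hy' : y = F.a r b := by rw [hbdef, ← F.add]; simp [F.zero]
  have hN := F.N_nd hregb.1
  have hb0 := hregb.2 0 (by rw [F.zero]; exact hb)
  rw [F.zero] at hb0
  obtain ⟨k1, k2, k3, k4⟩ := hb0
  have hN' := F.N_nd k4
  have h1 : F.th P P' τ y = F.a (r * F.nd P' (τ b) / F.nd P b) (τ b) := by
    conv_lhs => rw [hy']
    exact hregb.formula hb hRi.2.1 hRi.2.2.le
  have hrpos : 0 < r := by
    rcases hRi.2.1.lt_or_eq with h2 | h2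
    · exact h2
    · exfalso
      apply hy
      rw [hy', ← h2, F.zero]
      exact hb
  rw [h1]
  refine hN'.2.2 _ (div_pos (mul_pos hrpos hN'.1) hN.1) ?_
  rw [div_lt_iff₀ hN.1, mul_comm]
  exact mul_lt_mul_of_pos_left hRi.2.2 hN'.1

theorem th_of_mem {P P' : Set Y} {τ : Y → Y} {y : Y} (hy : y ∈ P) :
    F.th P P' τ y = τ y := by
  have hR : F.R P y 0 := by
    refine ⟨le_rfl, ?_, fun e he he' => absurd he' (not_lt.2 he)⟩
    rw [neg_zero, F.zero]; exact hy
  rw [th, F.pd_eq hR, neg_zero, F.zero, zero_mul, zero_div, F.zero]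

theorem jlaw_eq_of_fc_eq (F : QFlow lam) {u w : Y → ℝ} (hu : Measurable u) (hw : Measurable w)
    (u0 : lam (Pset u) ≠ 0) (u1 : lam (Pset u) ≠ ∞) (w0 : lam (Pset w) ≠ 0)
    (w1 : lam (Pset w) ≠ ∞) (h : F.fc u = F.fc w) : F.jlaw u = F.jlaw w := by
  have : IsProbabilityMeasure (F.jlaw w) := ⟨F.jlaw_univ hw w0 w1⟩
  refine F.jlaw_eq hu u0 u1 fun s t => ?_
  rw [h, fc, measureReal_def (F.jlaw w), F.jlaw_apply hw, ENNReal.toReal_mul, ENNReal.toReal_inv,
    measureReal_def, measureReal_def]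
  ring

theorem borel_codes [StandardBorelSpace Y] [SFinite lam] (F : QFlow lam) (ν : Measure ℝ)
    [IsProbabilityMeasure ν] [NullSingletonClass ν] :
    @MeasurableSet (ℝ × ℝ → ℝ) (borel _)
      (range fun u : {u : Lp ℝ 1 lam | Nice lam ν u} => F.fc (u.1 : Y → ℝ)) := by
  have := polish_nice (lam := lam) ν
  refine borel_range _ (F.cont_fc ν) ?_
  intro z z' hzz
  have hu : Measurable (z.1 : Y → ℝ) := (Lp.stronglyMeasurable z.1).measurable
  have hu' : Measurable (z'.1 : Y → ℝ) := (Lp.stronglyMeasurable z'.1).measurable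
  have hn : Nice lam ν (z.1 : Y → ℝ) := z.2
  have hn' : Nice lam ν (z'.1 : Y → ℝ) := z'.2
  have ht := (Pset_lt_top z.1).ne
  have ht' := (Pset_lt_top z'.1).ne
  obtain ⟨G, hG, hGe⟩ := hn.inj
  obtain ⟨G', hG', hGe'⟩ := hn'.inj
  have hj := F.jlaw_eq_of_fc_eq hu hu' hn.pos ht hn'.pos ht' hzz
  have C := F.conj_of_jlaw_eq hu hu' hn hn' ht ht' hj hG hG' hGe hGe'
  have S := C.sym
  have S' := C.symm.sym
  have d1 := ENNReal.inv_ne_top.2 C.c0
  let h : {u : Lp ℝ 1 lam | Nice lam ν u} ≃ₜ {u : Lp ℝ 1 lam | Nice lam ν u} :=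
    { toFun := fun w => ⟨cmp S.m' d1 S.map' w.1,
        (S.nice (Lp.stronglyMeasurable w.1).measurable w.2).congr (coe_cmp S.m' d1 S.map' w.1).symm⟩
      invFun := fun w => ⟨cmp S.m C.c1 S.map w.1,
        (S'.nice (Lp.stronglyMeasurable w.1).measurable w.2).congr (coe_cmp S.m C.c1 S.map w.1).symm⟩
      left_inv := fun w => Subtype.ext (cmp_cmp S.m C.c1 S.map S.m' d1 S.map' S.inv w.1)
      right_inv := fun w => Subtype.ext (cmp_cmp S.m' d1 S.map' S.m C.c1 S.map S.inv' w.1)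
      continuous_toFun := ((continuous_cmp S.m' d1 S.map').comp continuous_subtype_val).subtype_mk _
      continuous_invFun := ((continuous_cmp S.m C.c1 S.map).comp continuous_subtype_val).subtype_mk _ }
  refine ⟨h, ?_, ?_⟩
  · refine Subtype.ext (Lp.ext ?_)
    have hA0 : ∀ᵐ v ∂ν, (z.1 : Y → ℝ) (G v) = v := by
      refine hn.ae_code' hu (measurableSet_eq_fun (hu.comp hG) measurable_id) ?_
      filter_upwards [hGe] with y hy hyP
      rw [hy hyP]
    have hA := hn'.ae_code hu' hA0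
    have hq := (qmp_of_map S.m' S.map').ae hn.vals
    filter_upwards [coe_cmp S.m' d1 S.map' z.1, hA, hq, hn'.vals, C.symm.reg]
      with y h1 h2 h3 h4 h5
    change (cmp S.m' d1 S.map' z.1 : Y → ℝ) y = (z'.1 : Y → ℝ) y
    rw [h1, Function.comp_apply]
    by_cases hy : y ∈ Pset (z'.1 : Y → ℝ)
    · rw [th_of_mem hy, Function.comp_apply]
      exact h2 hy
    · have h6 := h5.notMem hy
      have h7 : (z'.1 : Y → ℝ) y = 0 := by
        rcases h4 with h4 | h4
        · exact h4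
        · exact absurd h4.1 hy
      rw [h7]
      rcases h3 with h3 | h3
      · exact h3
      · exact absurd h3.1 h6
  · intro w
    have hw : Measurable (w.1 : Y → ℝ) := (Lp.stronglyMeasurable w.1).measurable
    have hwn : Nice lam ν (w.1 : Y → ℝ) := w.2
    change F.fc (cmp S.m' d1 S.map' w.1 : Y → ℝ) = F.fc (w.1 : Y → ℝ)
    rw [F.fc_congr (coe_cmp S.m' d1 S.map' w.1), S.fc_eq hw hwn.pos (Pset_lt_top w.1).ne]

end QFlow

end Pool.Agent.Lib.MP_2b824f_an
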