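import Mathlib
import Pool.Agent.Lib.MP_2b824f_an.MainAbstract

open Set Filter Topology MeasureTheory
open scoped ENNReal

namespace Pool.Agent.Lib.MP_2b824f_an

variable {Y : Type*} [MeasurableSpace Y] {lam : Measure Y}
variable {X : Type*} [MeasurableSpace X]

namespace QFlow

/-- `S` is realised as the next-point map of the section `P` through the coordinate map `k` -/
structure Sec (F : QFlow lam) (μ : Measure X) (S : X → X) (P : Set Y) (k : Y → X) (G : X → Y) :
    Prop where
  hP : MeasurableSet P
  P0 : lam P ≠ 0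
  P1 : lam P ≠ ∞
  mkk : Measurable k
  mG : Measurable G
  law : (lam.restrict P).map k = lam P • μ
  inv : ∀ᵐ y ∂lam, y ∈ P → G (k y) = y
  eq : ∀ᵐ y ∂lam, y ∈ P → k (F.nx P y) = S (k y)

variable {F : QFlow lam}

theorem sec_iff [StandardBorelSpace X] {μ : Measure X} [IsProbabilityMeasure μ] {e : X → ℝ}
    (he : MeasurableEmbedding e) (hb : ∀ x, 1 ≤ e x ∧ e x ≤ 2) {S : X → X} (hS : Measurable S) :
    (∃ P k G, F.Sec μ S P k G) ↔
      (fun p : ℝ × ℝ => μ.real {x | e x ≤ p.1 ∧ e (S x) ≤ p.2}) ∈
        range (fun u : {u : Lp ℝ 1 lam | Nice lam (μ.map e) u} => F.fc (u.1 : Y → ℝ)) := by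
  have hX : Nonempty X := by
    by_contra hcon
    rw [not_nonempty_iff] at hcon
    have := measure_univ (μ := μ)
    rw [Set.eq_empty_of_isEmpty (univ : Set X), measure_empty] at this
    exact zero_ne_one this
  obtain ⟨ι, hι, hιe⟩ := he.exists_measurable_extend measurable_id (fun _ => hX)
  have hιe' : ∀ x, ι (e x) = x := fun x => congrFun hιe x
  constructor
  · rintro ⟨P, k, G, h⟩
    let w : Y → ℝ := P.indicator (e ∘ k)
    have hwm : Measurable w := (he.measurable.comp h.mkk).indicator h.hP
    have hwP : ∀ y, y ∈ P → w y = e (k y) := fun y hy => indicator_of_mem hy _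
    have hwP' : ∀ y, y ∉ P → w y = 0 := fun y hy => indicator_of_notMem hy _
    have hPs : Pset w = P := by
      ext y
      constructor
      · intro hy
        by_contra hcon
        have h1 : 1 ≤ w y := hy
        rw [hwP' y hcon] at h1
        linarith
      · intro hy
        change 1 ≤ w y
        rw [hwP y hy]
        exact (hb _).1
    have hwi : Integrable w lam := by
      rw [integrable_indicator_iff h.hP]
      refine Measure.integrableOn_of_bounded (M := 2) h.P1
        (he.measurable.comp h.mkk).aestronglyMeasurable ?_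
      filter_upwards with y
      rw [Real.norm_eq_abs]
      exact abs_le.2 ⟨by simp only [Function.comp_apply]; linarith [(hb (k y)).1], (hb (k y)).2⟩
    have hmem : MemLp w 1 lam := memLp_one_iff_integrable.2 hwi
    have hcoe : (hmem.toLp w : Y → ℝ) =ᵐ[lam] w := hmem.coeFn_toLp
    have hlaw : (lam.restrict P).map w = lam P • μ.map e := by
      have h1 : w =ᵐ[lam.restrict P] e ∘ k := by
        rw [Filter.EventuallyEq, ae_restrict_iff' h.hP]
        exact Eventually.of_forall fun y hy => hwP y hy
      rw [Measure.map_congr h1, ← Measure.map_map he.measurable h.mkk, h.law, Measure.map_smul]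
    have hnice : Nice lam (μ.map e) w := by
      refine ⟨Eventually.of_forall fun y => ?_, by rw [hPs]; exact h.P0, by rw [hPs]; exact hlaw,
        ⟨G ∘ ι, h.mG.comp hι, ?_⟩⟩
      · by_cases hy : y ∈ P
        · right; rw [hwP y hy]; exact hb _
        · left; exact hwP' y hy
      · filter_upwards [h.inv] with y hy hyP
        rw [hPs] at hyP
        rw [Function.comp_apply, hwP y hyP, hιe', hy hyP]
    refine ⟨⟨hmem.toLp w, hnice.congr hcoe.symm⟩, ?_⟩
    change F.fc (hmem.toLp w : Y → ℝ) = _
    rw [F.fc_congr hcoe]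
    funext p
    have hE : MeasurableSet {x | e x ≤ p.1 ∧ e (S x) ≤ p.2} :=
      (measurableSet_le he.measurable measurable_const).inter
        (measurableSet_le (he.measurable.comp hS) measurable_const)
    have h2 : (F.cset w p : Set Y) =ᵐ[lam] (P ∩ k ⁻¹' {x | e x ≤ p.1 ∧ e (S x) ≤ p.2} : Set Y) := by
      filter_upwards [h.eq, F.good_ae h.hP h.P0 h.P1] with y hy hg
      refine propext ?_
      change (y ∈ Pset w ∧ w y ≤ p.1 ∧ w (F.nx (Pset w) y) ≤ p.2) ↔
        (y ∈ P ∧ (e (k y) ≤ p.1 ∧ e (S (k y)) ≤ p.2))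
      rw [hPs]
      refine and_congr_right fun hyP => ?_
      rw [hwP y hyP, hwP _ (F.nx_mem hg), hy hyP]
    have h3 : lam (P ∩ k ⁻¹' {x | e x ≤ p.1 ∧ e (S x) ≤ p.2})
        = lam P * μ {x | e x ≤ p.1 ∧ e (S x) ≤ p.2} := by
      have := congrArg (fun m => m {x | e x ≤ p.1 ∧ e (S x) ≤ p.2}) h.law
      simp only [Measure.smul_apply, smul_eq_mul] at this
      rw [Measure.map_apply h.mkk hE, Measure.restrict_apply (h.mkk hE), inter_comm] at this
      exact this
    rw [fc, hPs, measureReal_congr h2, measureReal_def, h3, ENNReal.toReal_mul,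
      measureReal_def, measureReal_def, mul_div_cancel_left₀]
    exact (ENNReal.toReal_pos h.P0 h.P1).ne'
  · rintro ⟨u, hu⟩
    have hum : Measurable (u.1 : Y → ℝ) := (Lp.stronglyMeasurable u.1).measurable
    have hn : Nice lam (μ.map e) (u.1 : Y → ℝ) := u.2
    have hP1 := (Pset_lt_top u.1).ne
    have hP := measurableSet_Pset hum
    obtain ⟨G, hG, hGe⟩ := hn.inj
    have hpm : Measurable fun x => (e x, e (S x)) :=
      he.measurable.prodMk (he.measurable.comp hS)
    have hprob : IsProbabilityMeasure (μ.map fun x => (e x, e (S x))) :=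
      Measure.isProbabilityMeasure_map hpm.aemeasurable
    have hj : F.jlaw (u.1 : Y → ℝ) = μ.map fun x => (e x, e (S x)) := by
      refine F.jlaw_eq hum hn.pos hP1 fun s t => ?_
      have h1 := congrFun hu (s, t)
      change F.fc (u.1 : Y → ℝ) (s, t) = μ.real {x | e x ≤ s ∧ e (S x) ≤ t} at h1
      rw [h1, measureReal_def, measureReal_def,
        Measure.map_apply hpm (measurableSet_Iic.prod measurableSet_Iic)]
      rfl
    have hcode : ∀ᵐ y ∂lam, y ∈ Pset (u.1 : Y → ℝ) → e (ι ((u.1 : Y → ℝ) y)) = (u.1 : Y → ℝ) y := by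
      refine hn.ae_code hum (r := fun v => e (ι v) = v) ?_
      have hmm : MeasurableSet {v : ℝ | e (ι v) = v} :=
        measurableSet_eq_fun (he.measurable.comp hι) measurable_id
      rw [ae_map_iff he.measurable.aemeasurable hmm]
      exact Eventually.of_forall fun x => by rw [hιe']
    have hrel : ∀ᵐ y ∂lam, y ∈ Pset (u.1 : Y → ℝ) →
        (u.1 : Y → ℝ) (F.nx (Pset (u.1 : Y → ℝ)) y) = e (S (ι ((u.1 : Y → ℝ) y))) := by
      have hr : MeasurableSet {p : ℝ × ℝ | p.2 = e (S (ι p.1))} :=
        measurableSet_eq_fun measurable_snd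
          (he.measurable.comp (hS.comp (hι.comp measurable_fst)))
      have h0 : ∀ᵐ v ∂(F.jlaw (u.1 : Y → ℝ)), v.2 = e (S (ι v.1)) := by
        rw [hj, ae_map_iff hpm.aemeasurable hr]
        exact Eventually.of_forall fun x => by simp only [hιe']
      exact F.jlaw_ae hum hP1 h0
    refine ⟨Pset (u.1 : Y → ℝ), ι ∘ (u.1 : Y → ℝ), G ∘ e, hP, hn.pos, hP1, hι.comp hum,
      hG.comp he.measurable, ?_, ?_, ?_⟩
    · rw [← Measure.map_map hι hum, hn.law, Measure.map_smul,
        Measure.map_map hι he.measurable]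
      have : ι ∘ e = id := hιe
      rw [this, Measure.map_id]
    · filter_upwards [hcode, hGe] with y h1 h2 hyP
      simp only [Function.comp_apply]
      rw [h1 hyP, h2 hyP]
    · filter_upwards [hrel] with y h1 hyP
      simp only [Function.comp_apply]
      rw [h1 hyP, hιe']

end QFlow

end Pool.Agent.Lib.MP_2b824f_an
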