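import Mathlib
import Pool.Agent.Lib.MP_2b824f_an.Flow

open Set Filter Topology MeasureTheory
open scoped ENNReal

namespace Pool.Agent.Lib.MP_2b824f_an

variable {X : Type*} [MeasurableSpace X] {μ : Measure X}

/-- integer powers of an invertible map -/
def zp (T : X ≃ᵐ X) (n : ℤ) : X → X := ((T.toEquiv : Equiv.Perm X) ^ n : Equiv.Perm X)

theorem zp_add (T : X ≃ᵐ X) (m n : ℤ) (x : X) : zp T (m + n) x = zp T m (zp T n x) := by
  simp only [zp, zpow_add, Equiv.Perm.mul_apply]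

theorem zp_zero (T : X ≃ᵐ X) (x : X) : zp T 0 x = x := by simp [zp]

theorem zp_natCast (T : X ≃ᵐ X) (n : ℕ) : zp T n = T^[n] := by
  simp only [zp, zpow_natCast]
  rfl

theorem zp_neg_natCast (T : X ≃ᵐ X) (n : ℕ) : zp T (-n) = T.symm^[n] := by
  simp only [zp, zpow_neg, zpow_natCast, ← inv_pow]
  rfl

theorem zp_mp {T : X ≃ᵐ X} (hT : MeasurePreserving T μ μ) (n : ℤ) :
    MeasurePreserving (zp T n) μ μ := by
  rcases Int.eq_nat_or_neg n with ⟨m, rfl | rfl⟩
  · rw [zp_natCast]; exact hT.iterate m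
  · rw [zp_neg_natCast]; exact (hT.symm T).iterate m

/-- rationals in `[0,1)` -/
abbrev Q0 : Type := {q : ℚ // 0 ≤ q ∧ q < 1}

/-- fractional part -/
def fr (r : ℚ) : Q0 := ⟨Int.fract r, Int.fract_nonneg r, Int.fract_lt_one r⟩

theorem fr_coe (q : Q0) : fr q.1 = q := Subtype.ext (Int.fract_eq_self.2 q.2)

/-- the point at position `r` of the leaf of `(x, 0)` -/
def pt (T : X ≃ᵐ X) (x : X) (r : ℚ) : X × Q0 := (zp T ⌊r⌋ x, fr r)

theorem pt_coe (T : X ≃ᵐ X) (x : X) (q : Q0) : pt T x q.1 = (x, q) := by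
  have : ⌊q.1⌋ = 0 := Int.floor_eq_zero_iff.2 q.2
  rw [pt, this, zp_zero, fr_coe]

theorem pt_shift (T : X ≃ᵐ X) (x : X) (n : ℤ) (r : ℚ) : pt T (zp T n x) r = pt T x (n + r) := by
  rw [pt, pt]
  refine Prod.ext ?_ ?_
  · simp only [Int.floor_intCast_add]
    rw [add_comm, zp_add]
  · simp [fr]

/-- rational suspension flow -/
def sus (T : X ≃ᵐ X) (d : ℚ) (y : X × Q0) : X × Q0 := pt T y.1 (y.2.1 + d)

theorem sus_pt (T : X ≃ᵐ X) (d : ℚ) (x : X) (r : ℚ) : sus T d (pt T x r) = pt T x (r + d) := by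
  change pt T (zp T ⌊r⌋ x) (Int.fract r + d) = pt T x (r + d)
  rw [pt_shift]
  congr 1
  have := Int.floor_add_fract r
  linarith

theorem sus_zero (T : X ≃ᵐ X) (y : X × Q0) : sus T 0 y = y := by
  rw [sus, add_zero, pt_coe]

theorem sus_add (T : X ≃ᵐ X) (d e : ℚ) (y : X × Q0) :
    sus T (d + e) y = sus T d (sus T e y) := by
  rw [sus, sus.eq_def T e, sus_pt]
  congr 1; ring

theorem measurable_sus (T : X ≃ᵐ X) (hT : MeasurePreserving T μ μ) (d : ℚ) :
    Measurable (sus T d) := by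
  have h : ∀ q : Q0, Measurable fun x => sus T d (x, q) := fun q =>
    (zp_mp hT ⌊q.1 + d⌋).measurable.prodMk (measurable_const (a := fr (q.1 + d)))
  exact measurable_from_prod_countable_left h

/-- the bijection of the fibre induced by a translation -/
def frEquiv (d : ℚ) : Q0 ≃ Q0 where
  toFun q := fr (q.1 + d)
  invFun q := fr (q.1 - d)
  left_inv q := by
    refine Subtype.ext ?_
    simp only [fr]
    have h : Int.fract (q.1 + d) - d = q.1 - ⌊q.1 + d⌋ := by
      have := Int.floor_add_fract (q.1 + d)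
      linarith
    rw [h, Int.fract_sub_intCast]
    exact Int.fract_eq_self.2 q.2
  right_inv q := by
    refine Subtype.ext ?_
    simp only [fr]
    have h : Int.fract (q.1 - d) + d = q.1 - ⌊q.1 - d⌋ := by
      have := Int.floor_add_fract (q.1 - d)
      linarith
    rw [h, Int.fract_sub_intCast]
    exact Int.fract_eq_self.2 q.2

/-- the measure of the suspension -/
noncomputable def slam (μ : Measure X) : Measure (X × Q0) := μ.prod Measure.count

theorem slam_apply [SFinite μ] {E : Set (X × Q0)} (hE : MeasurableSet E) :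
    slam μ E = ∑' q : Q0, μ {x | (x, q) ∈ E} := by
  rw [slam, Measure.prod_apply_symm hE, lintegral_count]
  rfl

theorem lintegral_slam [SFinite μ] {u : X × Q0 → ℝ≥0∞} (hu : Measurable u) :
    ∫⁻ y, u y ∂(slam μ) = ∫⁻ x, ∑' q : Q0, u (x, q) ∂μ := by
  rw [slam, lintegral_prod _ hu.aemeasurable]
  simp_rw [lintegral_count]

theorem sus_mp [SFinite μ] {T : X ≃ᵐ X} (hT : MeasurePreserving T μ μ) (d : ℚ) :
    MeasurePreserving (sus T d) (slam μ) (slam μ) := by
  refine ⟨measurable_sus T hT d, ?_⟩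
  ext E hE
  rw [Measure.map_apply (measurable_sus T hT d) hE, slam_apply (measurable_sus T hT d hE),
    slam_apply hE]
  refine Eq.trans ?_ ((frEquiv d).tsum_eq _)
  refine tsum_congr fun q => ?_
  have h1 : {x | (x, q) ∈ sus T d ⁻¹' E} = zp T ⌊q.1 + d⌋ ⁻¹' {x | (x, fr (q.1 + d)) ∈ E} := rfl
  rw [h1]
  refine (zp_mp hT _).measure_preimage ?_
  exact (measurable_prodMk_right hE).nullMeasurableSet

theorem ae_slam_fst {p : X → Prop} (h : ∀ᵐ x ∂μ, p x) : ∀ᵐ y ∂(slam μ), p y.1 :=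
  Measure.quasiMeasurePreserving_fst.ae h

theorem ae_slam_section [SFinite μ] {p : X × Q0 → Prop} (h : ∀ᵐ y ∂(slam μ), p y) (q : Q0) :
    ∀ᵐ x ∂μ, p (x, q) := by
  obtain ⟨E, hE, hEm, hE0⟩ := (exists_measurable_superset_of_null (ae_iff.1 h))
  rw [slam_apply hEm, ENNReal.tsum_eq_zero] at hE0
  rw [ae_iff]
  refine measure_mono_null ?_ (hE0 q)
  intro x hx
  exact hE hx

theorem sus_summ [SFinite μ] {T : X ≃ᵐ X} (hT : MeasurePreserving T μ μ) (u : X × Q0 → ℝ≥0∞)
    (hu : Measurable u) (hi : ∫⁻ y, u y ∂(slam μ) ≠ ∞) :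
    ∀ᵐ y ∂(slam μ), ∀ s : ℚ, ∑' t : {t : ℚ // |t| ≤ s}, u (sus T t y) ≠ ∞ := by
  classical
  rw [lintegral_slam hu] at hi
  let U : X → ℝ≥0∞ := fun x => ∑' q : Q0, u (x, q)
  have hU : Measurable U := Measurable.tsum fun q => hu.comp measurable_prodMk_right
  have h1 : ∀ᵐ x ∂μ, U x < ∞ := ae_lt_top hU hi
  have h2 : ∀ᵐ x ∂μ, ∀ n : ℤ, U (zp T n x) < ∞ :=
    ae_all_iff.2 fun n => (zp_mp hT n).quasiMeasurePreserving.ae h1
  filter_upwards [ae_slam_fst h2] with y hy s
  obtain ⟨x, q⟩ := y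
  simp only at hy
  let g : ℤ × Q0 → ℝ≥0∞ := fun p => if p.1 ∈ Finset.Icc (⌊-s⌋) (⌊s + 1⌋)
    then u (zp T p.1 x, p.2) else 0
  let f : {t : ℚ // |t| ≤ s} → ℤ × Q0 := fun t => (⌊q.1 + t.1⌋, fr (q.1 + t.1))
  have hf : Function.Injective f := by
    intro t t' htt
    simp only [f, Prod.mk.injEq, fr, Subtype.mk.injEq] at htt
    have e1 := Int.floor_add_fract (q.1 + t.1)
    have e2 := Int.floor_add_fract (q.1 + t'.1)
    rw [htt.1, htt.2] at e1
    refine Subtype.ext ?_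
    linarith
  have hle : ∑' t : {t : ℚ // |t| ≤ s}, u (sus T t (x, q)) ≤ ∑' p, g p := by
    refine le_trans (le_of_eq ?_) (ENNReal.tsum_comp_le_tsum_of_injective hf g)
    refine tsum_congr fun t => ?_
    have ht := abs_le.1 t.2
    have hmem : ⌊q.1 + t.1⌋ ∈ Finset.Icc (⌊-s⌋) (⌊s + 1⌋) := by
      rw [Finset.mem_Icc]
      constructor
      · exact Int.floor_le_floor (by linarith [q.2.1, ht.1])
      · exact Int.floor_le_floor (by linarith [q.2.2, ht.2])
    simp only [g, f, if_pos hmem]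
    rfl
  refine ne_top_of_le_ne_top ?_ hle
  rw [ENNReal.tsum_prod']
  rw [tsum_eq_sum (s := Finset.Icc (⌊-s⌋) (⌊s + 1⌋))]
  · refine ENNReal.sum_ne_top.2 fun n hn => ?_
    simp only [g, if_pos hn]
    exact (hy n).ne
  · intro n hn
    simp only [g, if_neg hn, tsum_zero]

theorem rec_fwd [IsProbabilityMeasure μ] {T : X ≃ᵐ X} (hT : Ergodic T μ) {A : Set X}
    (hA : MeasurableSet A) (h0 : μ A ≠ 0) : ∀ᵐ x ∂μ, ∀ m : ℕ, ∃ n : ℕ, m ≤ n ∧ zp T n x ∈ A := by
  rw [ae_all_iff]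
  intro m
  let U : ℕ → Set X := fun m => ⋃ n : ℕ, zp T (m + n : ℕ) ⁻¹' A
  have hUm : ∀ m, MeasurableSet (U m) := fun m =>
    MeasurableSet.iUnion fun n => (zp_mp hT.toMeasurePreserving _).measurable hA
  have hpre : ∀ m, T ⁻¹' (U m) ⊆ U m := by
    intro m x hx
    obtain ⟨n, hn⟩ := mem_iUnion.1 hx
    refine mem_iUnion.2 ⟨n + 1, ?_⟩
    rw [mem_preimage, zp_natCast] at hn ⊢
    rw [← add_assoc, Function.iterate_succ_apply]
    exact hn
  have h1 := hT.ae_empty_or_univ_of_preimage_ae_le (hUm m).nullMeasurableSet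
    (LE.le.eventuallyLE (hpre m))
  have h2 : U m =ᵐ[μ] (univ : Set X) := by
    rcases h1 with h1 | h1
    · exfalso
      apply h0
      have h3 : μ (zp T (m + 0 : ℕ) ⁻¹' A) = 0 := by
        refine measure_mono_null (subset_iUnion (fun n : ℕ => zp T (m + n : ℕ) ⁻¹' A) 0) ?_
        rw [measure_congr h1, measure_empty]
      rwa [(zp_mp hT.toMeasurePreserving _).measure_preimage hA.nullMeasurableSet] at h3
    · exact h1
  rw [eventuallyEq_univ] at h2
  filter_upwards [h2] with x hx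
  obtain ⟨n, hn⟩ := mem_iUnion.1 hx
  exact ⟨m + n, by omega, hn⟩

theorem rec_bwd [IsProbabilityMeasure μ] {T : X ≃ᵐ X} (hT : Ergodic T μ) {A : Set X}
    (hA : MeasurableSet A) (h0 : μ A ≠ 0) :
    ∀ᵐ x ∂μ, ∀ m : ℕ, ∃ n : ℕ, m ≤ n ∧ zp T (-n) x ∈ A := by
  rw [ae_all_iff]
  intro m
  let U : ℕ → Set X := fun m => ⋃ n : ℕ, zp T (-(m + n : ℕ)) ⁻¹' A
  have hUm : ∀ m, MeasurableSet (U m) := fun m =>
    MeasurableSet.iUnion fun n => (zp_mp hT.toMeasurePreserving _).measurable hA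
  have hpre : ∀ m, U m ⊆ T ⁻¹' (U m) := by
    intro m x hx
    obtain ⟨n, hn⟩ := mem_iUnion.1 hx
    refine mem_iUnion.2 ⟨n + 1, ?_⟩
    rw [mem_preimage] at hn ⊢
    have h2 : (T x) = zp T 1 x := by
      have := zp_natCast T 1
      rw [Nat.cast_one] at this
      rw [this]; rfl
    rw [h2, ← zp_add]
    convert hn using 2
    push_cast
    ring
  have h1 := hT.ae_empty_or_univ_of_ae_le_preimage (hUm m).nullMeasurableSet
    (LE.le.eventuallyLE (hpre m))
  have h2 : U m =ᵐ[μ] (univ : Set X) := by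
    rcases h1 with h1 | h1
    · exfalso
      apply h0
      have h3 : μ (zp T (-(m + 0 : ℕ)) ⁻¹' A) = 0 := by
        refine measure_mono_null (subset_iUnion (fun n : ℕ => zp T (-(m + n : ℕ)) ⁻¹' A) 0) ?_
        rw [measure_congr h1, measure_empty]
      rwa [(zp_mp hT.toMeasurePreserving _).measure_preimage hA.nullMeasurableSet] at h3
    · exact h1
  rw [eventuallyEq_univ] at h2
  filter_upwards [h2] with x hx
  obtain ⟨n, hn⟩ := mem_iUnion.1 hx
  exact ⟨m + n, by omega, hn⟩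

theorem exists_level [SFinite μ] {P : Set (X × Q0)} (hP : MeasurableSet P) (h0 : slam μ P ≠ 0) :
    ∃ q : Q0, μ {x | (x, q) ∈ P} ≠ 0 := by
  by_contra hcon
  push Not at hcon
  apply h0
  rw [slam_apply hP, ENNReal.tsum_eq_zero]
  exact hcon

/-- the rational suspension of an ergodic transformation -/
noncomputable def susFlow [IsProbabilityMeasure μ] {T : X ≃ᵐ X} (hT : Ergodic T μ) :
    QFlow (slam μ) where
  a := sus T
  zero := sus_zero T
  add := sus_add T
  mp := sus_mp hT.toMeasurePreserving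
  summ := sus_summ hT.toMeasurePreserving
  up := by
    intro P hP h0
    obtain ⟨q, hq⟩ := exists_level hP h0
    have hA : MeasurableSet {x | (x, q) ∈ P} := measurable_prodMk_right hP
    filter_upwards [ae_slam_fst (rec_fwd hT hA hq)] with y hy s
    obtain ⟨m, hm⟩ := exists_nat_gt (s + y.2.1)
    obtain ⟨n, hmn, hn⟩ := hy m
    refine ⟨n + q.1 - y.2.1, ?_, ?_⟩
    · have : (m : ℚ) ≤ n := by exact_mod_cast hmn
      have := q.2.1
      linarith
    · rw [sus]
      have h1 : y.2.1 + ((n : ℚ) + q.1 - y.2.1) = ((n : ℤ) : ℚ) + q.1 := by push_cast; ring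
      rw [h1, ← pt_shift, pt_coe]
      exact hn
  dn := by
    intro P hP h0
    obtain ⟨q, hq⟩ := exists_level hP h0
    have hA : MeasurableSet {x | (x, q) ∈ P} := measurable_prodMk_right hP
    filter_upwards [ae_slam_fst (rec_bwd hT hA hq)] with y hy s
    obtain ⟨m, hm⟩ := exists_nat_gt (-s + 1)
    obtain ⟨n, hmn, hn⟩ := hy m
    refine ⟨-(n : ℚ) + q.1 - y.2.1, ?_, ?_⟩
    · have : (m : ℚ) ≤ n := by exact_mod_cast hmn
      have := q.2.2
      have := y.2.2.1
      linarith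
    · rw [sus]
      have h1 : y.2.1 + (-(n : ℚ) + q.1 - y.2.1) = ((-(n : ℤ) : ℤ) : ℚ) + q.1 := by
        push_cast; ring
      rw [h1, ← pt_shift, pt_coe]
      exact hn

end Pool.Agent.Lib.MP_2b824f_an
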