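import Mathlib
import Pool.Agent.Lib.MP_2b824f_an.Section
import Pool.Agent.Lib.MP_2b824f_an.Suspension
import Pool.Agent.Lib.MP_2b824f_an.Defs

open Set Filter Topology MeasureTheory
open scoped ENNReal

namespace Pool.Agent.Lib.MP_2b824f_an

/-- positions in the fibre -/
def qs (j : ℕ) : Q0 := ⟨(j : ℚ) / (j + 1), by positivity, by
  rw [div_lt_one (by positivity)]; linarith⟩

theorem qs_lt {i j : ℕ} (h : i < j) : (qs i).1 < (qs j).1 := by
  simp only [qs]
  rw [div_lt_div_iff₀ (by positivity) (by positivity)]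
  have : (i : ℚ) < j := by exact_mod_cast h
  nlinarith

theorem qs_lt_iff {i j : ℕ} : (qs i).1 < (qs j).1 ↔ i < j := by
  constructor
  · intro h
    by_contra hcon
    push Not at hcon
    rcases hcon.lt_or_eq with h1 | h1
    · exact absurd (qs_lt h1) (not_lt.2 h.le)
    · rw [h1] at h; exact lt_irrefl _ h
  · exact qs_lt

theorem qs_injective : Function.Injective qs := by
  intro i j h
  rcases lt_trichotomy i j with h1 | h1 | h1
  · have := qs_lt h1; rw [h] at this; exact absurd this (lt_irrefl _)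
  · exact h1
  · have := qs_lt h1; rw [h] at this; exact absurd this (lt_irrefl _)

theorem qs_zero : qs 0 = ⟨0, le_rfl, zero_lt_one⟩ := by
  refine Subtype.ext ?_
  simp [qs]

/-- left inverse of `qs` -/
noncomputable def jq (q : Q0) : ℕ := Function.invFun qs q

theorem jq_qs (j : ℕ) : jq (qs j) = j := Function.leftInverse_invFun qs_injective j

variable {X : Type*} [MeasurableSpace X] {μ : Measure X}

/-- backward hitting time -/
noncomputable def hit (S : X ≃ᵐ X) (B : Set X) (x : X) : ℕ := sInf {j : ℕ | S.symm^[j] x ∈ B}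

theorem symm_iterate (S : X ≃ᵐ X) (i j : ℕ) (h : i ≤ j) (b : X) :
    S.symm^[i] (S^[j] b) = S^[j - i] b := by
  rw [← zp_neg_natCast, ← zp_natCast, ← zp_natCast, ← zp_add]
  congr 1
  omega

theorem iterate_symm (S : X ≃ᵐ X) (j : ℕ) (x : X) : S^[j] (S.symm^[j] x) = x := by
  rw [← zp_neg_natCast, ← zp_natCast, ← zp_add]
  simp [zp_zero]

theorem kac_sum [IsProbabilityMeasure μ] {S : X ≃ᵐ X} (hS : Ergodic S μ) {B : Set X}
    (hB : MeasurableSet B) (h0 : μ B ≠ 0) {E : Set X} (hE : MeasurableSet E) :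
    ∑' j : ℕ, μ (B ∩ {b | j < returnTime S B b ∧ S^[j] b ∈ E}) = μ E := by
  have hSm : Measurable S := S.measurable
  have hSmp := hS.toMeasurePreserving
  let D : ℕ → Set X := fun j => {x | S.symm^[j] x ∈ B ∧ ∀ i, i < j → S.symm^[i] x ∉ B}
  have hDm : ∀ j, MeasurableSet (D j) := by
    intro j
    apply measurableSet_setOfPred.2
    refine Measurable.and (measurableSet_setOfPred.1 ((S.symm.measurable.iterate j) hB)) ?_
    refine Measurable.forall fun i => Measurable.imp measurable_const ?_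
    exact (measurableSet_setOfPred.1 ((S.symm.measurable.iterate i) hB)).not
  have h1 : ∀ j, μ (B ∩ {b | j < returnTime S B b ∧ S^[j] b ∈ E}) = μ (E ∩ D j) := by
    intro j
    rw [← (hSmp.iterate j).measure_preimage (hE.inter (hDm j)).nullMeasurableSet]
    refine measure_congr ?_
    filter_upwards [rec_fwd hS hB h0] with b hb
    obtain ⟨n, hn1, hn2⟩ := hb 1
    rw [zp_natCast] at hn2
    obtain ⟨r1, r2, r3⟩ := returnTime_spec (T := S) (A := B) ⟨n, hn1, hn2⟩
    refine propext ?_
    change (b ∈ B ∧ (j < returnTime S B b ∧ S^[j] b ∈ E)) ↔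
      (S^[j] b ∈ E ∧ (S.symm^[j] (S^[j] b) ∈ B ∧ ∀ i, i < j → S.symm^[i] (S^[j] b) ∉ B))
    have e0 : S.symm^[j] (S^[j] b) = b := by
      rw [symm_iterate S j j le_rfl, Nat.sub_self]; rfl
    rw [e0]
    constructor
    · rintro ⟨a1, a2, a3⟩
      refine ⟨a3, a1, fun i hi => ?_⟩
      rw [symm_iterate S i j hi.le]
      exact r3 _ (by omega) (by omega)
    · rintro ⟨a1, a2, a3⟩
      refine ⟨a2, ?_, a1⟩
      by_contra hcon
      push Not at hcon
      have := a3 (j - returnTime S B b) (by omega)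
      rw [symm_iterate S _ j (Nat.sub_le _ _), Nat.sub_sub_self hcon] at this
      exact this r2
  simp_rw [h1]
  rw [← measure_iUnion]
  · refine measure_congr ?_
    filter_upwards [rec_bwd hS hB h0] with x hx
    refine propext ?_
    change (x ∈ ⋃ j, E ∩ D j) ↔ x ∈ E
    rw [mem_iUnion]
    constructor
    · rintro ⟨j, hj, _⟩; exact hj
    · intro hxE
      obtain ⟨n, -, hn⟩ := hx 0
      rw [zp_neg_natCast] at hn
      have hne : {j : ℕ | S.symm^[j] x ∈ B}.Nonempty := ⟨n, hn⟩
      refine ⟨sInf {j : ℕ | S.symm^[j] x ∈ B}, hxE, Nat.sInf_mem hne, fun i hi hmem => ?_⟩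
      exact absurd (Nat.sInf_le (show i ∈ {j : ℕ | S.symm^[j] x ∈ B} from hmem)) (not_le.2 hi)
  · intro i j hij
    rw [Function.onFun, Set.disjoint_left]
    rintro x ⟨_, x1, x2⟩ ⟨_, x3, x4⟩
    rcases lt_or_gt_of_ne hij with h | h
    · exact x4 i h x1
    · exact x2 j h x3
  · intro j
    exact hE.inter (hDm j)

theorem sec_of_kak [StandardBorelSpace X] [IsProbabilityMeasure μ] {T : X ≃ᵐ X}
    (hT : Ergodic T μ) {S : X ≃ᵐ X} (hS : Ergodic S μ) (h : KakutaniRel μ T S) :
    ∃ (P : Set (X × Q0)) (k : X × Q0 → X) (G : X → X × Q0), (susFlow hT).Sec μ S P k G := by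
  classical
  obtain ⟨A, B, hA, hB, hA0, hB0, φ, ψ, hφ, hψ, hinv, -, heq⟩ := h
  have hA0' := hA0.ne'
  have hB0' := hB0.ne'
  have hAt := measure_ne_top μ A
  have hBt := measure_ne_top μ B
  set F := susFlow hT with hF
  let N : X → ℕ := returnTime S B
  have hNm : Measurable N := measurable_returnTime S.measurable hB
  -- facts on A
  have hcondA : ∀ {p : X → Prop}, (∀ᵐ x ∂(ProbabilityTheory.cond μ A), p x) →
      ∀ᵐ x ∂μ, x ∈ A → p x := by
    intro p hp
    have := (Measure.ae_ennreal_smul_measure_iff (ENNReal.inv_ne_zero.2 hAt)).1 hp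
    rwa [ae_restrict_iff' hA] at this
  have f1 : ∀ᵐ x ∂μ, x ∈ A → φ x ∈ B := by
    refine hcondA ?_
    refine hφ.quasiMeasurePreserving.ae ?_
    refine Measure.ae_smul_measure ?_ _
    exact ae_restrict_mem hB
  have f2 := hcondA hinv
  have f3 := hcondA heq
  have hmeas : ∀ E : Set X, MeasurableSet E → μ (A ∩ φ ⁻¹' E) = μ A / μ B * μ (B ∩ E) := by
    intro E hE
    have h1 := hφ.measure_preimage hE.nullMeasurableSet
    rw [ProbabilityTheory.cond_apply hA, ProbabilityTheory.cond_apply hB] at h1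
    have h2 : μ A * ((μ A)⁻¹ * μ (A ∩ φ ⁻¹' E)) = μ A * ((μ B)⁻¹ * μ (B ∩ E)) := by rw [h1]
    rw [← mul_assoc, ENNReal.mul_inv_cancel hA0' hAt, one_mul, ← mul_assoc] at h2
    exact h2
  -- returns
  have f4 : ∀ᵐ x ∂μ, ∃ n, 1 ≤ n ∧ T^[n] x ∈ A := by
    filter_upwards [rec_fwd hT hA hA0'] with x hx
    obtain ⟨n, h1, h2⟩ := hx 1
    exact ⟨n, h1, by rwa [zp_natCast] at h2⟩
  have f5 : ∀ᵐ x ∂μ, 1 ≤ N x ∧ S^[N x] x ∈ B ∧ ∀ i, 1 ≤ i → i < N x → S^[i] x ∉ B := by
    filter_upwards [rec_fwd hS hB hB0'] with x hx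
    obtain ⟨n, h1, h2⟩ := hx 1
    rw [zp_natCast] at h2
    exact returnTime_spec ⟨n, h1, h2⟩
  have f6 : ∀ᵐ x ∂μ, x ∈ A → (1 ≤ N (φ x) ∧ S^[N (φ x)] (φ x) ∈ B ∧
      ∀ i, 1 ≤ i → i < N (φ x) → S^[i] (φ x) ∉ B) := by
    refine hcondA ?_
    refine hφ.quasiMeasurePreserving.ae (p := fun x => 1 ≤ N x ∧ S^[N x] x ∈ B ∧
      ∀ i, 1 ≤ i → i < N x → S^[i] x ∉ B) ?_
    exact Measure.ae_smul_measure (ae_restrict_of_ae f5) _
  have shiftT : ∀ {p : X → Prop}, (∀ᵐ x ∂μ, p x) → ∀ᵐ x ∂μ, ∀ n : ℕ, p (T^[n] x) := by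
    intro p hp
    rw [ae_all_iff]
    intro n
    exact (hT.toMeasurePreserving.iterate n).quasiMeasurePreserving.ae hp
  -- the section
  let P : Set (X × Q0) := ⋃ j : ℕ, {y | (y.1 ∈ A ∧ j < N (φ y.1)) ∧ y.2 = qs j}
  let k : X × Q0 → X := fun y => S^[jq y.2] (φ y.1)
  let G : X → X × Q0 := fun x => (ψ (S.symm^[hit S B x] x), qs (hit S B x))
  have hφm : Measurable φ := hφ.measurable
  have hψm : Measurable ψ := hψ.measurable
  have hlevm : ∀ j : ℕ, MeasurableSet {x | x ∈ A ∧ j < N (φ x)} := by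
    intro j
    refine hA.inter ?_
    exact (hNm.comp hφm) (MeasurableSet.of_discrete (s := {n : ℕ | j < n}))
  have hPm : MeasurableSet P := by
    refine MeasurableSet.iUnion fun j => ?_
    refine MeasurableSet.inter (s₁ := {y : X × Q0 | y.1 ∈ A ∧ j < N (φ y.1)})
      (s₂ := {y : X × Q0 | y.2 = qs j}) (measurable_fst (hlevm j)) ?_
    exact measurable_snd (measurableSet_singleton (qs j))
  have hPmem : ∀ (x : X) (j : ℕ), (x, qs j) ∈ P ↔ (x ∈ A ∧ j < N (φ x)) := by
    intro x j
    constructor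
    · intro hx
      obtain ⟨i, hi, h2⟩ := mem_iUnion.1 hx
      have : j = i := qs_injective h2
      rw [this]; exact hi
    · intro hx
      exact mem_iUnion.2 ⟨j, hx, rfl⟩
  have hPmem' : ∀ (y : X × Q0), y ∈ P → ∃ j, y.2 = qs j := by
    intro y hy
    obtain ⟨i, hi, h2⟩ := mem_iUnion.1 hy
    exact ⟨i, h2⟩
  have hkm : Measurable k := by
    have h1 : Measurable (fun p : ℕ × X => S^[p.1] p.2) :=
      measurable_from_prod_countable_right fun n => S.measurable.iterate n
    exact h1.comp (((measurable_of_countable jq).comp measurable_snd).prodMk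
      (hφm.comp measurable_fst))
  have hhitm : Measurable (hit S B) := by
    refine measurable_sInf_nat (p := fun n x => S.symm^[n] x ∈ B) fun n => ?_
    exact (S.symm.measurable.iterate n) hB
  have hGm : Measurable G := by
    have h1 : Measurable (fun p : ℕ × X => S.symm^[p.1] p.2) :=
      measurable_from_prod_countable_right fun n => S.symm.measurable.iterate n
    exact (hψm.comp (h1.comp (hhitm.prodMk measurable_id))).prodMk
      ((measurable_of_countable qs).comp hhitm)
  -- measure of P ∩ k⁻¹ E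
  have hPE : ∀ E : Set X, MeasurableSet E → slam μ (k ⁻¹' E ∩ P) = μ A / μ B * μ E := by
    intro E hE
    rw [slam_apply ((hkm hE).inter hPm)]
    have hsupp : Function.support (fun q : Q0 => μ {x | (x, q) ∈ k ⁻¹' E ∩ P}) ⊆ range qs := by
      intro q hq
      by_contra hcon
      apply hq
      have : {x : X | (x, q) ∈ k ⁻¹' E ∩ P} = ∅ := by
        ext x
        simp only [mem_ofPred_eq, mem_empty_iff_false, iff_false]
        rintro ⟨_, h2⟩
        obtain ⟨j, hj⟩ := hPmem' _ h2
        exact hcon ⟨j, hj.symm⟩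
      simp only [this, measure_empty]
    rw [← qs_injective.tsum_eq hsupp]
    have h2 : ∀ j : ℕ, μ {x | (x, qs j) ∈ k ⁻¹' E ∩ P}
        = μ A / μ B * μ (B ∩ {b | j < N b ∧ S^[j] b ∈ E}) := by
      intro j
      rw [← hmeas]
      · congr 1
        ext x
        change (S^[jq (qs j)] (φ x) ∈ E ∧ (x, qs j) ∈ P) ↔
          (x ∈ A ∧ (j < N (φ x) ∧ S^[j] (φ x) ∈ E))
        rw [hPmem, jq_qs]
        tauto
      · refine MeasurableSet.inter (s₁ := {b | j < N b}) (s₂ := {b | S^[j] b ∈ E}) ?_ ?_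
        · exact hNm (MeasurableSet.of_discrete (s := {n : ℕ | j < n}))
        · exact (S.measurable.iterate j) hE
    simp_rw [h2]
    rw [ENNReal.tsum_mul_left, kac_sum hS hB hB0' hE]
  have hPmeas : slam μ P = μ A / μ B := by
    have := hPE univ MeasurableSet.univ
    rw [preimage_univ, univ_inter, measure_univ, mul_one] at this
    exact this
  have hP0 : slam μ P ≠ 0 := by
    rw [hPmeas]; exact (ENNReal.div_pos hA0' hBt).ne'
  have hP1 : slam μ P ≠ ∞ := by
    rw [hPmeas]; exact ENNReal.div_ne_top hAt hB0'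
  refine ⟨P, k, G, hPm, hP0, hP1, hkm, hGm, ?_, ?_, ?_⟩
  · ext E hE
    rw [Measure.map_apply hkm hE, Measure.restrict_apply (hkm hE), hPE E hE,
      Measure.smul_apply, smul_eq_mul, hPmeas]
  · filter_upwards [ae_slam_fst f1, ae_slam_fst f2, ae_slam_fst f6] with y g1 g2 g6 hyP
    obtain ⟨a, q⟩ := y
    simp only at g1 g2 g6
    obtain ⟨j, hj⟩ := hPmem' _ hyP
    simp only at hj
    subst hj
    obtain ⟨haA, hjN⟩ := (hPmem a j).1 hyP
    obtain ⟨r1, r2, r3⟩ := g6 haA
    have hkj : k (a, qs j) = S^[j] (φ a) := by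
      change S^[jq (qs j)] (φ a) = _
      rw [jq_qs]
    have hhit : hit S B (S^[j] (φ a)) = j := by
      have hmemj : j ∈ {i : ℕ | S.symm^[i] (S^[j] (φ a)) ∈ B} := by
        change S.symm^[j] (S^[j] (φ a)) ∈ B
        rw [symm_iterate S j j le_rfl, Nat.sub_self]
        exact g1 haA
      apply le_antisymm
      · exact Nat.sInf_le hmemj
      · by_contra hcon
        push Not at hcon
        have hmem := Nat.sInf_mem ⟨j, hmemj⟩
        change S.symm^[hit S B (S^[j] (φ a))] (S^[j] (φ a)) ∈ B at hmem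
        rw [symm_iterate S _ j hcon.le] at hmem
        exact r3 _ (by omega) (by omega) hmem
    change (ψ (S.symm^[hit S B (k (a, qs j))] (k (a, qs j))), qs (hit S B (k (a, qs j)))) = _
    rw [hkj, hhit, symm_iterate S j j le_rfl, Nat.sub_self]
    exact Prod.ext (g2 haA) rfl
  · filter_upwards [ae_slam_fst f3, ae_slam_fst f4, ae_slam_fst (shiftT f6)]
      with y g3 g4 g6 hyP
    obtain ⟨a, q⟩ := y
    simp only at g3 g4 g6
    obtain ⟨j, hj⟩ := hPmem' _ hyP
    simp only at hj
    subst hj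
    obtain ⟨haA, hjN⟩ := (hPmem a j).1 hyP
    have g60 := g6 0
    simp only [Function.iterate_zero, id_eq] at g60
    obtain ⟨r1, r2, r3⟩ := g60 haA
    have hkj : k (a, qs j) = S^[j] (φ a) := by
      change S^[jq (qs j)] (φ a) = _
      rw [jq_qs]
    have hpt : ∀ e, F.a e (a, qs j) = pt T a ((qs j).1 + e) := fun e => rfl
    -- points of the same block
    have hblock : ∀ r : ℚ, 0 ≤ r → r < 1 → pt T a r ∈ P → ∃ i, r = (qs i).1 ∧ i < N (φ a) := by
      intro r hr0 hr1 hmem
      have e0 : pt T a r = (a, ⟨r, hr0, hr1⟩) := pt_coe T a ⟨r, hr0, hr1⟩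
      rw [e0] at hmem
      obtain ⟨i, hi⟩ := hPmem' _ hmem
      simp only at hi
      rw [hi] at hmem
      exact ⟨i, congrArg Subtype.val hi, ((hPmem a i).1 hmem).2⟩
    rcases Nat.lt_or_ge (j + 1) (N (φ a)) with hlt | hge
    · have hNx : F.N P (a, qs j) ((qs (j + 1)).1 - (qs j).1) := by
        refine ⟨sub_pos.2 (qs_lt (Nat.lt_succ_self j)), ?_, ?_⟩
        · rw [hpt]
          have e0 : (qs j).1 + ((qs (j + 1)).1 - (qs j).1) = (qs (j + 1)).1 := by ring
          rw [e0, pt_coe, hPmem]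
          exact ⟨haA, hlt⟩
        · intro e he1 he2 hmem
          rw [hpt] at hmem
          have q1 := (qs j).2.1
          have q2 := (qs (j + 1)).2.2
          obtain ⟨i, hi1, hi2⟩ := hblock _ (by linarith) (by linarith) hmem
          have i1 : j < i := qs_lt_iff.1 (by rw [← hi1]; linarith)
          have i2 : i < j + 1 := qs_lt_iff.1 (by rw [← hi1]; linarith)
          omega
      have hnx : F.nx P (a, qs j) = (a, qs (j + 1)) := by
        rw [QFlow.nx, F.nd_eq hNx, hpt]
        have e0 : (qs j).1 + ((qs (j + 1)).1 - (qs j).1) = (qs (j + 1)).1 := by ring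
        rw [e0, pt_coe]
      rw [hnx, hkj]
      change S^[jq (qs (j + 1))] (φ a) = S (S^[j] (φ a))
      rw [jq_qs, Function.iterate_succ_apply']
    · have hNeq : N (φ a) = j + 1 := le_antisymm hge hjN
      obtain ⟨n1, n2, n3⟩ := returnTime_spec g4
      set n := returnTime T A a with hn
      have hTa : inducedMap T A a = T^[n] a := rfl
      have hpn : pt T a (n : ℚ) = (T^[n] a, qs 0) := by
        have e0 : ((n : ℚ)) = ((n : ℤ) : ℚ) + (qs 0).1 := by rw [qs_zero]; simp
        rw [e0, ← pt_shift, pt_coe, zp_natCast]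
      have hnP : pt T a (n : ℚ) ∈ P := by
        rw [hpn, hPmem]
        exact ⟨n2, (g6 n n2).1⟩
      have hNx : F.N P (a, qs j) ((n : ℚ) - (qs j).1) := by
        refine ⟨?_, ?_, ?_⟩
        · have : (1 : ℚ) ≤ n := by exact_mod_cast n1
          have := (qs j).2.2
          linarith
        · rw [hpt]
          have e0 : (qs j).1 + ((n : ℚ) - (qs j).1) = n := by ring
          rw [e0]; exact hnP
        · intro e he1 he2 hmem
          rw [hpt] at hmem
          set r := (qs j).1 + e with hr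
          have hr0 : 0 < r := by have := (qs j).2.1; linarith
          have hrn : r < n := by linarith
          rcases lt_or_ge r 1 with hr1 | hr1
          · obtain ⟨i, hi1, hi2⟩ := hblock r hr0.le hr1 hmem
            have i1 : j < i := qs_lt_iff.1 (by rw [← hi1]; linarith)
            omega
          · obtain ⟨i, hi⟩ := hPmem' _ hmem
            have hfl1 : 1 ≤ ⌊r⌋ := Int.le_floor.2 (by exact_mod_cast hr1)
            have hfl2 : ⌊r⌋ < n := Int.floor_lt.2 (by exact_mod_cast hrn)
            obtain ⟨m, hm⟩ : ∃ m : ℕ, ⌊r⌋ = m := ⟨⌊r⌋.toNat, by omega⟩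
            have hptr : pt T a r = (T^[m] a, qs i) := by
              refine Prod.ext ?_ hi
              change zp T ⌊r⌋ a = _
              rw [hm, zp_natCast]
            rw [hptr, hPmem] at hmem
            exact n3 m (by omega) (by omega) hmem.1
      have hnx : F.nx P (a, qs j) = (T^[n] a, qs 0) := by
        rw [QFlow.nx, F.nd_eq hNx, hpt]
        have e0 : (qs j).1 + ((n : ℚ) - (qs j).1) = n := by ring
        rw [e0, hpn]
      rw [hnx, hkj]
      change S^[jq (qs 0)] (φ (T^[n] a)) = S (S^[j] (φ a))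
      have g := g3 haA
      rw [hTa] at g
      have hr : returnTime S B (φ a) = j + 1 := hNeq
      rw [jq_qs, Function.iterate_zero, id_eq, g, inducedMap, hr, Function.iterate_succ_apply']

end Pool.Agent.Lib.MP_2b824f_an
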