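import Mathlib
import Pool.Agent.Lib.MP_2b824f_an.Section
import Pool.Agent.Lib.MP_2b824f_an.Suspension
import Pool.Agent.Lib.MP_2b824f_an.Defs

open Set Filter Topology MeasureTheory
open scoped ENNReal

namespace Pool.Agent.Lib.MP_2b824f_an

namespace QFlow

variable {Y : Type*} [MeasurableSpace Y] {lam : Measure Y} {F : QFlow lam}

theorem iter_leaf {P : Set Y} {y : Y} (hg : Good (F.tr P y)) (hy : y ∈ P) (i : ℕ) :
    ∃ t, (F.nx P)^[i] y = F.a t y ∧ F.a t y ∈ P := by
  induction i with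
  | zero => exact ⟨0, by simp [F.zero], by rw [F.zero]; exact hy⟩
  | succ i ih =>
    obtain ⟨t, h1, h2⟩ := ih
    refine ⟨F.nd P (F.a t y) + t, ?_, ?_⟩
    · rw [Function.iterate_succ_apply', h1, nx, F.add]
    · rw [F.add]
      exact F.nx_mem (F.good_shift hg t)

/-- every later point of `P` on the leaf is reached by iterating the next-point map -/
theorem iter_reach {P : Set Y} {y : Y} (hg : Good (F.tr P y)) (hy : y ∈ P) {d : ℚ} (hd : 0 < d)
    (hdP : F.a d y ∈ P) : ∃ j, 1 ≤ j ∧ (F.nx P)^[j] y = F.a d y ∧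
      ∀ i, 1 ≤ i → i < j → ∃ e, 0 < e ∧ e < d ∧ (F.nx P)^[i] y = F.a e y := by
  let C : ℚ → ℚ → Prop := fun s t => F.a s y ∈ P → F.a t y ∈ P →
    ∃ j, 1 ≤ j ∧ (F.nx P)^[j] (F.a s y) = F.a t y ∧
      ∀ i, 1 ≤ i → i < j → ∃ e, s < e ∧ e < t ∧ (F.nx P)^[i] (F.a s y) = F.a e y
  have hC : ∀ s t, s < t → C s t := by
    refine hg.chain C ?_ ?_
    · intro s g t hsg hgt hgG c1 c2 hs ht
      obtain ⟨j1, a1, a2, a3⟩ := c1 hs hgG
      obtain ⟨j2, b1, b2, b3⟩ := c2 hgG ht
      refine ⟨j2 + j1, by omega, ?_, ?_⟩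
      · rw [Function.iterate_add_apply, a2, b2]
      · intro i hi1 hi2
        rcases lt_trichotomy i j1 with h | h | h
        · obtain ⟨e, e1, e2, e3⟩ := a3 i hi1 h
          exact ⟨e, e1, e2.trans hgt, e3⟩
        · exact ⟨g, hsg, hgt, by rw [h, a2]⟩
        · obtain ⟨e, e1, e2, e3⟩ := b3 (i - j1) (by omega) (by omega)
          refine ⟨e, hsg.trans e1, e2, ?_⟩
          have : i = (i - j1) + j1 := by omega
          rw [this, Function.iterate_add_apply, a2, e3]
    · intro s t hst hno hs ht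
      have hN : F.N P (F.a s y) (t - s) := by
        refine ⟨by linarith, ?_, ?_⟩
        · rw [← F.add, sub_add_cancel]; exact ht
        · intro e he1 he2 hmem
          rw [← F.add] at hmem
          exact hno (e + s) (by linarith) (by linarith) hmem
      refine ⟨1, le_rfl, ?_, fun i h1 h2 => absurd h1 (by omega)⟩
      rw [Function.iterate_one, nx, F.nd_eq hN, ← F.add, sub_add_cancel]
  have := hC 0 d hd (by rw [F.zero]; exact hy) hdP
  rw [F.zero] at this
  exact this

theorem iter_eq {X : Type*} {S : X → X} {k : Y → X} {P : Set Y} {y : Y}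
    (hg : Good (F.tr P y)) (hy : y ∈ P)
    (he : ∀ t, F.a t y ∈ P → k (F.nx P (F.a t y)) = S (k (F.a t y))) (i : ℕ) :
    S^[i] (k y) = k ((F.nx P)^[i] y) := by
  induction i with
  | zero => rfl
  | succ i ih =>
    obtain ⟨t, h1, h2⟩ := iter_leaf hg hy i
    rw [Function.iterate_succ_apply', ih, Function.iterate_succ_apply', h1, he t h2]

variable {X : Type*} [MeasurableSpace X] {μ : Measure X} {S : X → X} {P : Set Y} {k : Y → X}
  {G : X → Y}

theorem Sec.map_G (h : F.Sec μ S P k G) : μ.map G = (lam P)⁻¹ • lam.restrict P := by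
  have h2 : μ = (lam P)⁻¹ • (lam.restrict P).map k := by
    rw [h.law, smul_smul, ENNReal.inv_mul_cancel h.P0 h.P1, one_smul]
  have h3 : (G ∘ k) =ᵐ[lam.restrict P] id := by
    rw [Filter.EventuallyEq, ae_restrict_iff' h.hP]
    exact h.inv
  rw [h2, Measure.map_smul, Measure.map_map h.mG h.mkk, Measure.map_congr h3, Measure.map_id]

theorem Sec.ae_G [StandardBorelSpace X] (h : F.Sec μ S P k G) :
    ∀ᵐ x ∂μ, G x ∈ P ∧ k (G x) = x := by
  have hm : MeasurableSet {x | G x ∈ P ∧ k (G x) = x} := by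
    apply measurableSet_setOfPred.2
    exact Measurable.and (measurableSet_setOfPred.1 (h.mG h.hP)) ((h.mkk.comp h.mG).eq measurable_id)
  have h1 : ∀ᵐ x ∂((lam.restrict P).map k), G x ∈ P ∧ k (G x) = x := by
    rw [ae_map_iff h.mkk.aemeasurable hm, ae_restrict_iff' h.hP]
    filter_upwards [h.inv] with y hy hyP
    rw [hy hyP]
    exact ⟨hyP, rfl⟩
  rw [h.law] at h1
  exact (Measure.ae_ennreal_smul_measure_iff h.P0).1 h1

end QFlow

variable {X : Type*} [MeasurableSpace X] {μ : Measure X}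

theorem kak_of_sec [StandardBorelSpace X] [IsProbabilityMeasure μ] {T : X ≃ᵐ X}
    (hT : Ergodic T μ) {S : X → X} {P : Set (X × Q0)} {k : X × Q0 → X} {G : X → X × Q0}
    (h : (susFlow hT).Sec μ S P k G) : KakutaniRel μ T S := by
  classical
  set F := susFlow hT with hF
  obtain ⟨q, hq⟩ := exists_level h.hP h.P0
  have hsing : MeasurableSet ({q} : Set Q0) := measurableSet_singleton q
  let A : Set X := {x | (x, q) ∈ P}
  have hA : MeasurableSet A := measurable_prodMk_right h.hP
  let P2 : Set (X × Q0) := P ∩ Prod.snd ⁻¹' {q}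
  have hP2 : MeasurableSet P2 := h.hP.inter (measurable_snd hsing)
  let B : Set X := G ⁻¹' P2
  have hB : MeasurableSet B := h.mG hP2
  let φ : X → X := fun x => k (x, q)
  let ψ : X → X := fun x => (G x).1
  have hφ : Measurable φ := h.mkk.comp measurable_prodMk_right
  have hψ : Measurable ψ := measurable_fst.comp h.mG
  -- measures of subsets of P2
  have hlev : ∀ E : Set (X × Q0), MeasurableSet E → slam μ (P2 ∩ E) = μ {x | x ∈ A ∧ (x, q) ∈ E} := by
    intro E hE
    rw [slam_apply (hP2.inter hE), tsum_eq_single q]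
    · congr 1
      ext x
      constructor
      · rintro ⟨⟨h1, _⟩, h2⟩; exact ⟨h1, h2⟩
      · rintro ⟨h1, h2⟩; exact ⟨⟨h1, rfl⟩, h2⟩
    · intro q' hq'
      have : {x : X | (x, q') ∈ P2 ∩ E} = ∅ := by
        ext x
        simp only [mem_ofPred_eq, mem_empty_iff_false, iff_false]
        rintro ⟨⟨_, h1⟩, _⟩
        exact hq' h1
      rw [this, measure_empty]
  have hP2A : slam μ P2 = μ A := by
    have := hlev univ MeasurableSet.univ
    rw [inter_univ] at this
    rw [this]
    congr 1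
    ext x
    simp
  have hP2P : P2 ⊆ P := inter_subset_left
  have hGmap := h.map_G
  have hGE : ∀ E : Set (X × Q0), MeasurableSet E →
      μ (G ⁻¹' (P2 ∩ E)) = (slam μ P)⁻¹ * slam μ (P2 ∩ E) := by
    intro E hE
    rw [← Measure.map_apply h.mG (hP2.inter hE), hGmap, Measure.smul_apply, smul_eq_mul,
      Measure.restrict_apply (hP2.inter hE)]
    congr 2
    exact inter_eq_left.2 (inter_subset_left.trans hP2P)
  have hμB : μ B = (slam μ P)⁻¹ * μ A := by
    have := hGE univ MeasurableSet.univ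
    rw [inter_univ] at this
    rw [← hP2A]; exact this
  have hμA : μ A = slam μ P * μ B := by
    rw [hμB, ← mul_assoc, ENNReal.mul_inv_cancel h.P0 h.P1, one_mul]
  have hA0 : μ A ≠ 0 := hq
  have hB0 : μ B ≠ 0 := by
    intro h0
    rw [h0, mul_zero] at hμA
    exact hA0 hμA
  -- key measure identity
  have hkey : ∀ E : Set X, MeasurableSet E → μ (A ∩ φ ⁻¹' E) = slam μ P * μ (B ∩ E) := by
    intro E hE
    have h1 : μ (B ∩ E) = μ (G ⁻¹' (P2 ∩ k ⁻¹' E)) := by
      refine measure_congr ?_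
      filter_upwards [h.ae_G] with x hx
      refine propext ?_
      change (G x ∈ P2 ∧ x ∈ E) ↔ (G x ∈ P2 ∧ k (G x) ∈ E)
      rw [hx.2]
    rw [h1, hGE _ (h.mkk hE), ← mul_assoc, ENNReal.mul_inv_cancel h.P0 h.P1, one_mul,
      hlev _ (h.mkk hE)]
    rfl
  -- pointwise facts on leaves through (x, q)
  have e1 := ae_slam_section (F.ae_shift h.inv) q
  have e2 := ae_slam_section (F.ae_shift h.eq) q
  have e3 := ae_slam_section (F.good_ae h.hP h.P0 h.P1) q
  have hP20 : slam μ P2 ≠ 0 := by rw [hP2A]; exact hA0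
  have hP21 : slam μ P2 ≠ ∞ := by rw [hP2A]; exact measure_ne_top μ A
  have e4 := ae_slam_section (F.good_ae hP2 hP20 hP21) q
  have hcondA : ∀ {p : X → Prop}, (∀ᵐ x ∂μ, x ∈ A → p x) →
      ∀ᵐ x ∂(ProbabilityTheory.cond μ A), p x := by
    intro p hp
    refine Measure.ae_smul_measure ?_ _
    rw [ae_restrict_iff' hA]; exact hp
  have hcondB : ∀ {p : X → Prop}, (∀ᵐ x ∂μ, x ∈ B → p x) →
      ∀ᵐ x ∂(ProbabilityTheory.cond μ B), p x := by
    intro p hp
    refine Measure.ae_smul_measure ?_ _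
    rw [ae_restrict_iff' hB]; exact hp
  have hinvA : ∀ᵐ x ∂(ProbabilityTheory.cond μ A), ψ (φ x) = x := by
    refine hcondA ?_
    filter_upwards [e1] with x hx hxA
    have := hx 0
    rw [F.zero] at this
    change (G (k (x, q))).1 = x
    rw [this hxA]
  have hφmp : MeasurePreserving φ (ProbabilityTheory.cond μ A) (ProbabilityTheory.cond μ B) := by
    refine ⟨hφ, ?_⟩
    ext E hE
    rw [Measure.map_apply hφ hE, ProbabilityTheory.cond_apply hA, ProbabilityTheory.cond_apply hB,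
      hkey E hE, hμA, ENNReal.mul_inv (Or.inl h.P0) (Or.inl h.P1), mul_mul_mul_comm,
      ENNReal.inv_mul_cancel h.P0 h.P1, one_mul]
  refine ⟨A, B, hA, hB, pos_iff_ne_zero.2 hA0, pos_iff_ne_zero.2 hB0, φ, ψ, hφmp, ⟨hψ, ?_⟩,
    hinvA, ?_, ?_⟩
  · rw [← hφmp.map_eq, Measure.map_map hψ hφ]
    have : (ψ ∘ φ) =ᵐ[ProbabilityTheory.cond μ A] id := hinvA
    rw [Measure.map_congr this, Measure.map_id]
  · refine hcondB ?_
    filter_upwards [h.ae_G] with x hx hxB
    have h1 : (G x).2 = q := hxB.2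
    change k ((G x).1, q) = x
    rw [← h1]
    exact hx.2
  · refine hcondA ?_
    filter_upwards [e1, e2, e3, e4] with x h1 h2 h3 h4 hxA
    have hyP : (x, q) ∈ P := hxA
    obtain ⟨hd0, hdP2, hdno⟩ := F.N_nd h4
    set d := F.nd P2 (x, q) with hd
    -- d is an integer
    have hax : ∀ e, F.a e (x, q) = (zp T ⌊q.1 + e⌋ x, fr (q.1 + e)) := fun e => rfl
    have hfr : fr (q.1 + d) = q := hdP2.2
    have hfr' : Int.fract (q.1 + d) = q.1 := congrArg Subtype.val hfr
    have hdint : d = (⌊q.1 + d⌋ : ℤ) := by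
      have := Int.floor_add_fract (q.1 + d)
      rw [hfr'] at this
      linarith
    have hmpos : 0 < ⌊q.1 + d⌋ := by
      have : (0 : ℚ) < (⌊q.1 + d⌋ : ℤ) := by rw [← hdint]; exact hd0
      exact_mod_cast this
    obtain ⟨m, hm⟩ : ∃ m : ℕ, ⌊q.1 + d⌋ = m := ⟨⌊q.1 + d⌋.toNat, by omega⟩
    have hm1 : 1 ≤ m := by omega
    have hdm : d = (m : ℚ) := by rw [hdint, hm]; simp
    have hai : ∀ i : ℕ, F.a (i : ℚ) (x, q) = (T^[i] x, q) := by
      intro i
      have e0 : q.1 + (i : ℚ) = ((i : ℤ) : ℚ) + q.1 := by push_cast; ring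
      have : F.a (i : ℚ) (x, q) = pt T x (q.1 + (i : ℚ)) := rfl
      rw [this, e0, ← pt_shift, pt_coe, zp_natCast]
    have hret : returnTime T A x = m := by
      refine returnTime_eq hm1 ?_ ?_
      · have := hP2P hdP2
        rw [hdm, hai] at this
        exact this
      · intro i hi1 hi2 hmem
        apply hdno (i : ℚ) (by exact_mod_cast hi1) (by rw [hdm]; exact_mod_cast hi2)
        rw [hai]
        exact ⟨hmem, rfl⟩
    have hind : inducedMap T A x = T^[m] x := by rw [inducedMap, hret]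
    obtain ⟨j, j1, j2, j3⟩ := QFlow.iter_reach h3 hyP hd0 (hP2P hdP2)
    have hit := fun i => QFlow.iter_eq (S := S) (k := k) h3 hyP h2 i
    have hretS : returnTime S B (φ x) = j := by
      refine returnTime_eq j1 ?_ ?_
      · change G (S^[j] (k (x, q))) ∈ P2
        rw [hit, j2, h1 d (hP2P hdP2)]
        exact hdP2
      · intro i hi1 hi2 hmem
        change G (S^[i] (k (x, q))) ∈ P2 at hmem
        obtain ⟨e, k1, k2, k3⟩ := j3 i hi1 hi2
        obtain ⟨t, t1, t2⟩ := QFlow.iter_leaf h3 hyP i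
        rw [hit, k3] at hmem
        have hmemP : F.a e (x, q) ∈ P := by rw [← k3, t1]; exact t2
        rw [h1 e hmemP] at hmem
        exact hdno e k1 k2 hmem
    rw [hind, inducedMap, hretS]
    change k (T^[m] x, q) = S^[j] (k (x, q))
    rw [hit, j2, hdm, hai]

end Pool.Agent.Lib.MP_2b824f_an
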